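import Pool.Agent.MP_5f6c2d_pr.I29.Spec

/- Indistinguishability of infinite tricolor paths: from the alcove model to the words of the
frozen statement. -/

set_option autoImplicit false
open scoped Classical ENNReal
open MeasureTheory

namespace Pool.Agent.MP_5f6c2d_pr.I29

open h58

namespace Bri

def io (v : Cl) : Cl := ![v 0 + v 1 - v 2, v 0 - v 1 + v 2, v 0 - v 1 - v 2]

theorem io_inj : Function.Injective io := by
  intro u v h
  have h0 := congrFun h 0
  have h1 := congrFun h 1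
  have h2 := congrFun h 2
  simp [io] at h0 h1 h2
  ext i; fin_cases i <;> simp <;> omega

theorem io_add (u v : Cl) : io (u + v) = io u + io v := by
  ext i; fin_cases i <;> simp [io] <;> ring

theorem io_sub (u v : Cl) : io (u - v) = io u - io v := by
  ext i; fin_cases i <;> simp [io] <;> ring

def dd (x y z : ℤ) : Prop :=
  ((x = 2 ∨ x = -2) ∧ y = 0 ∧ z = 0) ∨ ((y = 2 ∨ y = -2) ∧ x = 0 ∧ z = 0) ∨
    ((z = 2 ∨ z = -2) ∧ x = 0 ∧ y = 0) ∨ ((x = 1 ∨ x = -1) ∧ (y = 1 ∨ y = -1) ∧ (z = 1 ∨ z = -1))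

instance (x y z : ℤ) : Decidable (dd x y z) := by unfold dd; infer_instance

theorem adj_dd {v u : Cl} (h : Adj v u) : dd (v 0 - u 0) (v 1 - u 1) (v 2 - u 2) := by
  obtain ⟨-, -, ⟨i, h1, h2⟩ | h⟩ := h
  · have a0 := h2 0
    have a1 := h2 1
    have a2 := h2 2
    unfold dd
    fin_cases i <;> simp at h1 a0 a1 a2 <;> omega
  · have a0 := h 0
    have a1 := h 1
    have a2 := h 2
    unfold dd; omega

theorem geo0 : ∀ a c d e : Fin 4, a ≠ c → a ≠ d → a ≠ e → c ≠ d → c ≠ e → d ≠ e →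
    ∀ x ∈ [(-2 : ℤ), -1, 0, 1, 2], ∀ y ∈ [(-2 : ℤ), -1, 0, 1, 2], ∀ z ∈ [(-2 : ℤ), -1, 0, 1, 2],
    dd x y z → dd (x - io (w c) 0) (y - io (w c) 1) (z - io (w c) 2) →
    dd (x - io (w c) 0 - io (w d) 0) (y - io (w c) 1 - io (w d) 1) (z - io (w c) 2 - io (w d) 2) →
    (x = - io (w a) 0 ∧ y = - io (w a) 1 ∧ z = - io (w a) 2) ∨
      (x = - io (w e) 0 ∧ y = - io (w e) 1 ∧ z = - io (w e) 2) := by
  decide +kernel

theorem geo (s : St) (v : Cl) (h1 : Adj v (io (cell s 1))) (h2 : Adj v (io (cell s 2)))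
    (h3 : Adj v (io (cell s 3))) : v = io (cell s 0) ∨ v = io (cell (h58.flip s) 0) := by
  have e2 : io (cell s 2) = io (cell s 1) + io (w (s.2 1)) := by rw [← io_add]; rfl
  have e3 : io (cell s 3) = io (cell s 1) + io (w (s.2 1)) + io (w (s.2 2)) := by
    rw [← io_add, ← io_add, cell_3']; rfl
  have e0 : io (cell s 0) = io (cell s 1) - io (w (s.2 0)) := by
    rw [← io_sub, cell_1, add_sub_cancel_right]; rfl
  have e4 : io (cell (h58.flip s) 0) = io (cell s 1) - io (w (s.2 3)) := by rw [← io_sub]; rfl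
  rw [e2] at h2; rw [e3] at h3; rw [e0, e4]
  generalize io (cell s 1) = c at *
  have a1 := adj_dd h1
  have a2 := adj_dd h2
  have a3 := adj_dd h3
  simp only [Pi.add_apply, ← sub_sub] at a2 a3
  have := geo0 (s.2 0) (s.2 1) (s.2 2) (s.2 3) (p_ne s (by decide)) (p_ne s (by decide))
    (p_ne s (by decide)) (p_ne s (by decide)) (p_ne s (by decide)) (p_ne s (by decide))
    _ (by unfold dd at a1; simp; omega) _ (by unfold dd at a1; simp; omega)
    _ (by unfold dd at a1; simp; omega) a1 a2 a3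
  refine this.imp (fun h => ?_) fun h => ?_ <;> ext i <;> fin_cases i <;> simp <;> omega

noncomputable def fac (s : St) : Finset Cl := {io (cell s 1), io (cell s 2), io (cell s 3)}
noncomputable def alc (s : St) : Finset Cl := insert (io (cell s 0)) (fac s)

theorem fac_card (s : St) : (fac s).card ≤ 3 := Finset.card_le_three

theorem fac_flip (s : St) : fac (h58.flip s) = fac s := by simp [fac]

theorem alc_rot (s : St) : alc (rot s) = alc s := by
  ext v; simp only [alc, fac, Finset.mem_insert, Finset.mem_singleton, cell_rot0, cell_rot1,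
    cell_rot2, cell_rot3]; tauto

theorem alc_nxt (ω : Om) (s : St) : alc (nxt ω s) = alc (h58.flip s) := by
  unfold nxt turn; split_ifs <;> simp only [alc_rot]

theorem clique {Q : Finset Cl} {s : St} (h4 : Q.card = 4) (hq : ∀ v ∈ Q, ∀ w ∈ Q, v ≠ w → Adj v w)
    (hf : fac s ⊆ Q) : Q = alc s ∨ Q = alc (h58.flip s) := by
  obtain ⟨v, hv, hv'⟩ := Finset.exists_mem_notMem_of_card_lt_card (s := fac s) (t := Q)
    (by have := fac_card s; omega)
  have ha : ∀ u ∈ fac s, Adj v u := fun u hu => hq v hv u (hf hu) fun e => hv' (e ▸ hu)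
  have h3 : (fac s).card = 3 := by
    obtain ⟨n1, n2, n3⟩ := cell_ne s
    exact Finset.card_eq_three.2 ⟨_, _, _, io_inj.ne n1, io_inj.ne n2, io_inj.ne n3, rfl⟩
  have e : insert v (fac s) = Q := Finset.eq_of_subset_of_card_le
    (Finset.insert_subset hv hf) (by rw [Finset.card_insert_of_notMem hv']; omega)
  rcases geo s v (ha _ (by simp [fac])) (ha _ (by simp [fac])) (ha _ (by simp [fac])) with h | h
  · left; rw [← e, h]; rfl
  · right; rw [← e, h, alc, fac_flip]

theorem all3 : ∀ a c d : Fin 3, (∀ e : Fin 3, a = e ∨ c = e ∨ d = e) → a ≠ c ∧ a ≠ d ∧ c ≠ d := by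
  decide

theorem tri_of {ω : Om} {s : St} (h : ∀ c : Fin 3, ∃ v ∈ fac s, ω v = c) :
    tri (fun u => ω (io u)) s := by
  refine all3 _ _ _ fun e => ?_
  obtain ⟨v, hv, rfl⟩ := h e
  simp only [fac, Finset.mem_insert, Finset.mem_singleton] at hv
  rcases hv with rfl | rfl | rfl <;> simp

theorem step1 {ω : Om} {s : St} {Q R : Finset Cl} (h : Step ω Q R) (h1 : Q = alc s)
    (h2 : Q ∩ R = fac s) : R = alc (h58.flip s) ∧ tri (fun u => ω (io u)) s := by
  refine ⟨?_, tri_of (h2 ▸ h.2.2.2.2.2.2)⟩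
  rcases clique h.2.1 h.2.2.2.2.1 (h2 ▸ Finset.inter_subset_right) with e | e
  · exact absurd (h1.trans e.symm) h.2.2.1
  · exact e

theorem step2 {ω : Om} {s : St} {R Z : Finset Cl} (h : Step ω R Z) (h1 : R = alc s)
    (h2 : Z ≠ alc (h58.flip s)) (ht : tri (fun u => ω (io u)) s) :
    R ∩ Z = fac (turn (fun u => ω (io u)) s) := by
  obtain ⟨v, hv, hv'⟩ := Finset.exists_mem_notMem_of_card_lt_card (s := R ∩ Z) (t := R)
    (by have := h.1; have := h.2.2.2.2.2.1; omega)
  have key : ∀ s' : St, alc s' = alc s → v = io (cell s' 0) → R ∩ Z = fac s' := by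
    intro s' e1 e2
    refine Finset.eq_of_subset_of_card_le (fun u hu => ?_)
      (by have := fac_card s'; have := h.2.2.2.2.2.1; omega)
    have : u ∈ alc s' := by rw [e1, ← h1]; exact (Finset.mem_inter.1 hu).1
    rcases Finset.mem_insert.1 this with e | e
    · exact absurd (e2 ▸ e ▸ hu) hv'
    · exact e
  obtain ⟨t1, t2, t3⟩ := id ht
  beta_reduce at t1 t2 t3
  rw [h1] at hv
  simp only [alc, fac, Finset.mem_insert, Finset.mem_singleton] at hv
  rcases hv with e | e | e | e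
  · exact absurd (step1 h h1 (key s rfl e)).1 h2
  · have k := key (rot s) (alc_rot s) e
    have := (step1 h (h1.trans (alc_rot s).symm) k).2
    simp only [tri, cell_rot1, cell_rot2, cell_rot3] at this
    rw [turn_eq1 ht (by omega), k]
  · have e1 : alc (rot (rot s)) = alc s := by simp only [alc_rot]
    have k := key _ e1 (by simpa using e)
    have := (step1 h (h1.trans e1.symm) k).2
    simp only [tri, cell_rot0, cell_rot1, cell_rot2, cell_rot3] at this
    rw [turn_eq2 ht (by omega), k]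
  · have e1 : alc (rot (rot (rot s))) = alc s := by simp only [alc_rot]
    have k := key _ e1 (by simpa using e)
    have := (step1 h (h1.trans e1.symm) k).2
    simp only [tri, cell_rot0, cell_rot1, cell_rot2, cell_rot3] at this
    rw [turn_eq3 ht (by omega), k]

theorem follow {ω : Om} {s : St} {x : ℕ → Finset Cl} {n : ℕ} (hi : Set.InjOn x (Set.Iic n))
    (hs : ∀ k < n, Step ω (x k) (x (k + 1))) (h1 : x 0 = alc s) (h2 : x 0 ∩ x 1 = fac s) (t : ℕ) :
    (t ≤ n → x t = alc (X (fun u => ω (io u)) s t)) ∧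
      (t < n → x t ∩ x (t + 1) = fac (X (fun u => ω (io u)) s t)) := by
  induction t with
  | zero => exact ⟨fun _ => h1, fun _ => h2⟩
  | succ t ih =>
    refine ⟨fun h => ?_, fun h => ?_⟩
    · rw [X_succ, alc_nxt]
      exact (step1 (hs t h) (ih.1 (by omega)) (ih.2 h)).1
    · obtain ⟨a, c⟩ := step1 (hs t (by omega)) (ih.1 (by omega)) (ih.2 (by omega))
      rw [X_succ]
      refine step2 (hs _ h) a ?_ ((tri_flip _ _).2 c)
      rw [h58.flip_flip, ← ih.1 (by omega)]
      intro e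
      have := hi (show t + 1 + 1 ≤ n by omega) (show t ≤ n by omega) e
      omega

def k0 (v : Cl) : Cl := ![(v 0 + v 1) / 2, (v 0 - v 2) / 2, (v 1 - v 2) / 2]

def Lat (v : Cl) : Prop := (∀ i, Even (v i)) ∨ (∀ i, Odd (v i))

theorem k0_add (v u : Cl) : k0 (v + io u) = k0 v + u := by
  ext i; fin_cases i <;> simp [k0, io] <;> omega

theorem k0_io (u : Cl) : k0 (io u) = u := by
  ext i; fin_cases i <;> simp [k0, io] <;> omega

theorem lat_io (u : Cl) : Lat (io u) := by
  rcases Int.emod_two_eq_zero_or_one (u 0 + u 1 + u 2) with h | h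
  · left; intro i; rw [Int.even_iff]; fin_cases i <;> simp [io] <;> omega
  · right; intro i; rw [Int.odd_iff]; fin_cases i <;> simp [io] <;> omega

theorem io_k0 {v : Cl} (h : Lat v) : io (k0 v) = v := by
  have : v 0 % 2 = v 1 % 2 ∧ v 0 % 2 = v 2 % 2 := by
    rcases h with h | h
    · simp only [Int.even_iff] at h; simp only [h, and_self]
    · simp only [Int.odd_iff] at h; simp only [h, and_self]
  ext i; fin_cases i <;> simp [k0, io] <;> omega

theorem adj_io {u v : Cl} (h : dd (io (u - v) 0) (io (u - v) 1) (io (u - v) 2)) :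
    Adj (io u) (io v) := by
  refine ⟨lat_io u, lat_io v, ?_⟩
  rw [io_sub] at h
  simp only [Pi.sub_apply] at h
  generalize io u = x at h ⊢
  generalize io v = y at h ⊢
  rcases h with h | h | h | h
  · exact Or.inl ⟨0, by omega, fun j hj => by fin_cases j <;> simp at hj ⊢ <;> omega⟩
  · exact Or.inl ⟨1, by omega, fun j hj => by fin_cases j <;> simp at hj ⊢ <;> omega⟩
  · exact Or.inl ⟨2, by omega, fun j hj => by fin_cases j <;> simp at hj ⊢ <;> omega⟩
  · exact Or.inr fun j => by fin_cases j <;> simp <;> omega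

def cl0 (a c e : Fin 4) : Fin 4 → Cl := ![0, w a, w a + w c, -w e]

theorem cl0_dd : ∀ a c e : Fin 4, a ≠ c → a ≠ e → c ≠ e → ∀ i j : Fin 4, i ≠ j →
    dd (io (cl0 a c e i - cl0 a c e j) 0) (io (cl0 a c e i - cl0 a c e j) 1)
      (io (cl0 a c e i - cl0 a c e j) 2) := by
  decide +kernel

theorem adj_cell (s : St) {i j : Fin 4} (h : i ≠ j) : Adj (io (cell s i)) (io (cell s j)) := by
  have e : ∀ k, cell s k = s.1 + cl0 (s.2 0) (s.2 1) (s.2 3) k := fun k => by
    fin_cases k <;> simp [cell, cl0, add_assoc, sub_eq_add_neg]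
  refine adj_io ?_
  rw [e, e, add_sub_add_left_eq_sub]
  exact cl0_dd _ _ _ (p_ne s (by decide)) (p_ne s (by decide)) (p_ne s (by decide)) i j h

theorem adj_ne {v u : Cl} (h : Adj v u) : v ≠ u := by
  rintro rfl
  have := adj_dd h
  unfold dd at this
  omega

theorem mem_alc {s : St} {v : Cl} (h : v ∈ alc s) : ∃ k, v = io (cell s k) := by
  simp only [alc, fac, Finset.mem_insert, Finset.mem_singleton] at h
  rcases h with e | e | e | e <;> exact ⟨_, e⟩

theorem fac_three (s : St) : (fac s).card = 3 := by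
  obtain ⟨n1, n2, n3⟩ := cell_ne s
  exact Finset.card_eq_three.2 ⟨_, _, _, io_inj.ne n1, io_inj.ne n2, io_inj.ne n3, rfl⟩

theorem not_fac (s : St) : io (cell s 0) ∉ fac s := by
  simp only [fac, Finset.mem_insert, Finset.mem_singleton, not_or]
  exact ⟨adj_ne (adj_cell s (by decide)), adj_ne (adj_cell s (by decide)),
    adj_ne (adj_cell s (by decide))⟩

theorem alc_four (s : St) : (alc s).card = 4 := by
  rw [alc, Finset.card_insert_of_notMem (not_fac s), fac_three]

theorem alc_adj (s : St) : ∀ v ∈ alc s, ∀ u ∈ alc s, v ≠ u → Adj v u := by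
  intro v hv u hu n
  obtain ⟨i, rfl⟩ := mem_alc hv
  obtain ⟨j, rfl⟩ := mem_alc hu
  exact adj_cell s fun e => n (by rw [e])

theorem apex_ne (s : St) : io (cell s 0) ≠ io (cell (h58.flip s) 0) := fun e => by
  have h := congrArg (be (s.2 0) (s.2 3)) (io_inj e)
  have := p_ne s (show (3 : Fin 4) ≠ 0 by decide)
  simp [cell_0, flip_fst, be_add, be_sub, be_w, this, this.symm] at h
  omega

theorem alc_inter (s : St) : alc s ∩ alc (h58.flip s) = fac s := by
  ext v
  simp only [alc, fac_flip, Finset.mem_inter, Finset.mem_insert]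
  refine ⟨fun ⟨a, c⟩ => ?_, fun h => ⟨Or.inr h, Or.inr h⟩⟩
  rcases a with a | a
  · exact c.resolve_left fun c => apex_ne s (a.symm.trans c)
  · exact a

theorem cov3 : ∀ a c d : Fin 3, a ≠ c → a ≠ d → c ≠ d → ∀ e : Fin 3, a = e ∨ c = e ∨ d = e := by
  decide

theorem step_of {ζ : Om} {s : St} (h : tri ζ s) :
    Step (fun v => ζ (k0 v)) (alc s) (alc (h58.flip s)) := by
  refine ⟨alc_four _, alc_four _, fun e => ?_, alc_adj _, alc_adj _, ?_, fun c => ?_⟩
  · have h1 := alc_inter s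
    rw [← e, Finset.inter_self] at h1
    have h2 := alc_four s
    rw [h1, fac_three] at h2
    omega
  · rw [alc_inter, fac_three]
  · rw [alc_inter]
    rcases cov3 _ _ _ h.1 h.2.1 h.2.2 c with e | e | e
    · exact ⟨io (cell s 1), by simp [fac], by simp only [k0_io, e]⟩
    · exact ⟨io (cell s 2), by simp [fac], by simp only [k0_io, e]⟩
    · exact ⟨io (cell s 3), by simp [fac], by simp only [k0_io, e]⟩

theorem alc_tr (v : Cl) (s : St) : alc ((tr v).act s) = (alc s).image (· + io v) := by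
  have e : ∀ k, io (cell ((tr v).act s) k) = io (cell s k) + io v := fun k => by
    rw [Sym.cell_act, ← io_add]; rfl
  simp only [alc, fac, Finset.image_insert, Finset.image_singleton, e]

def T2 (p q : Cl) : Prop := ∃ a c : Fin 4, a ≠ c ∧ p = io (w a) ∧ q = io (w c)

instance (p q : Cl) : Decidable (T2 p q) := by unfold T2; infer_instance

def T0 (p q : Cl) : Prop :=
  T2 p (q - p) ∨ T2 q (p - q) ∨ T2 (-p) q ∨ T2 (q - p) (-q) ∨ T2 (-q) p ∨ T2 (p - q) (-p)

instance (p q : Cl) : Decidable (T0 p q) := by unfold T0; infer_instance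

theorem six0 : ∀ x ∈ [(-2 : ℤ), -1, 0, 1, 2], ∀ y ∈ [(-2 : ℤ), -1, 0, 1, 2],
    ∀ z ∈ [(-2 : ℤ), -1, 0, 1, 2], dd x y z →
    ∀ x' ∈ [(-2 : ℤ), -1, 0, 1, 2], ∀ y' ∈ [(-2 : ℤ), -1, 0, 1, 2],
    ∀ z' ∈ [(-2 : ℤ), -1, 0, 1, 2], dd x' y' z' → dd (x' - x) (y' - y) (z' - z) →
    T0 ![x, y, z] ![x', y', z'] := by
  decide +kernel

theorem ex_perm : ∀ a c : Fin 4, a ≠ c → ∃ π : P4, π 1 = a ∧ π 2 = c := by
  decide +kernel

theorem fac_of {x y z : Cl} (hx : Lat x) (h : T2 (y - x) (z - y)) : ∃ s, fac s = {x, y, z} := by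
  obtain ⟨a, c, n, e1, e2⟩ := h
  obtain ⟨π, rfl, rfl⟩ := ex_perm a c n
  refine ⟨(k0 x - w (π 0), π), ?_⟩
  simp only [fac, cell_1, cell_2, cell_3', sub_add_cancel, io_add, io_k0 hx, ← e1, ← e2,
    add_sub_cancel]

theorem face {x y z : Cl} (h1 : Adj y x) (h2 : Adj z x) (h3 : Adj z y) :
    ∃ s, fac s = {x, y, z} := by
  have a1 := adj_dd h1
  have a2 := adj_dd h2
  have a3 := adj_dd h3
  have e : ∀ p : Cl, ![p 0, p 1, p 2] = p := fun p => by ext i; fin_cases i <;> rfl
  have h := six0 _ (by unfold dd at a1; simp; omega) _ (by unfold dd at a1; simp; omega)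
    _ (by unfold dd at a1; simp; omega) a1 _ (by unfold dd at a2; simp; omega)
    _ (by unfold dd at a2; simp; omega) _ (by unfold dd at a2; simp; omega) a2
    (by simpa only [sub_sub_sub_cancel_right] using a3)
  have h' : T0 (y - x) (z - x) := by rw [← e (y - x), ← e (z - x)]; exact h
  simp only [T0, sub_sub_sub_cancel_right, neg_sub] at h'
  have lx : Lat x := h1.2.1
  have ly : Lat y := h1.1
  have lz : Lat z := h2.1
  rcases h' with h | h | h | h | h | h
  · exact fac_of lx h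
  · exact (fac_of lx h).imp fun s e => e.trans (by
      ext v; simp only [Finset.mem_insert, Finset.mem_singleton]; tauto)
  · exact (fac_of ly h).imp fun s e => e.trans (by
      ext v; simp only [Finset.mem_insert, Finset.mem_singleton]; tauto)
  · exact (fac_of ly h).imp fun s e => e.trans (by
      ext v; simp only [Finset.mem_insert, Finset.mem_singleton]; tauto)
  · exact (fac_of lz h).imp fun s e => e.trans (by
      ext v; simp only [Finset.mem_insert, Finset.mem_singleton]; tauto)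
  · exact (fac_of lz h).imp fun s e => e.trans (by
      ext v; simp only [Finset.mem_insert, Finset.mem_singleton]; tauto)

theorem start {ω : Om} {Q R : Finset Cl} (h : Step ω Q R) : ∃ s, Q = alc s ∧ Q ∩ R = fac s := by
  obtain ⟨x, y, z, n1, n2, n3, e⟩ := Finset.card_eq_three.1 h.2.2.2.2.2.1
  have m : ∀ v ∈ ({x, y, z} : Finset Cl), v ∈ Q := fun v hv =>
    (Finset.mem_inter.1 (e ▸ hv)).1
  obtain ⟨s, hs⟩ := face (h.2.2.2.1 y (m y (by simp)) x (m x (by simp)) n1.symm)
    (h.2.2.2.1 z (m z (by simp)) x (m x (by simp)) n2.symm)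
    (h.2.2.2.1 z (m z (by simp)) y (m y (by simp)) n3.symm)
  rcases clique h.1 h.2.2.2.1 (s := s) (fun v hv => m v (hs ▸ hv)) with d | d
  · exact ⟨s, d, e.trans hs.symm⟩
  · exact ⟨h58.flip s, d, by rw [fac_flip, e, hs]⟩

theorem inf_of {ω : Om} {y : ℕ → Finset Cl} (hi : Function.Injective y)
    (hs : ∀ k, Step ω (y k) (y (k + 1))) : ∃ s, y 0 = alc s ∧ Inf (fun u => ω (io u)) s := by
  obtain ⟨s, h1, h2⟩ := start (hs 0)
  refine ⟨s, h1, (step1 (hs 0) h1 h2).2, fun t ht e => ?_⟩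
  have h3 := (follow (n := t) hi.injOn (fun k _ => hs k) h1 h2 t).1 le_rfl
  rw [e, ← h1] at h3
  have := hi h3
  omega

theorem colour_cases (ν : Measure (Fin 3)) [IsProbabilityMeasure ν] :
    (∀ᵐ ω ∂(mu ν), ∀ Q R, ¬ Step ω Q R) ∨ ∃ q : ℝ≥0∞, q ≠ 0 ∧ ∀ c, q ≤ ν {c} := by
  by_cases h : ∃ c, ν {c} = 0
  · left
    obtain ⟨c, hc⟩ := h
    have h1 : ∀ᵐ ω ∂(mu ν), ∀ v, ω v ≠ c := by
      rw [ae_all_iff]
      intro v
      have := Measure.infinitePi_pi (fun _ : Cl => ν) (s := ({v} : Finset Cl))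
        (t := fun _ => {c}) fun _ _ => measurableSet_singleton c
      rw [Finset.prod_singleton, hc] at this
      filter_upwards [measure_eq_zero_iff_ae_notMem.1 this] with ω hω h
      exact hω (by simpa using h)
    filter_upwards [h1] with ω hω Q R hs
    obtain ⟨v, _, hv⟩ := hs.2.2.2.2.2.2 c
    exact hω v hv
  · right
    simp only [not_exists] at h
    obtain ⟨c, _, hc⟩ := Finset.exists_min_image Finset.univ (fun c => ν {c}) ⟨0, by simp⟩
    exact ⟨ν {c}, h c, fun c' => hc c' (by simp)⟩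

theorem pull (ν : Measure (Fin 3)) [IsProbabilityMeasure ν] {P : Om → Prop}
    (h : ∀ᵐ ζ ∂(mu ν), P ζ) : ∀ᵐ ω ∂(mu ν), P fun u => ω (io u) := by
  have e := Measure.map_infinitePi_infinitePi_of_inj (P := fun _ : Cl => ν) io_inj
  refine ae_of_ae_map (f := fun (ω : Om) u => ω (io u)) (Measurable.aemeasurable (by fun_prop)) ?_
  unfold mu at h ⊢
  rwa [e]

end Bri

open Bri in
theorem bri (h : Core) : Thm := by
  intro p A h1 h2 h3 h4
  rcases colour_cases p.toMeasure with h0 | ⟨q, q0, hq⟩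
  · left
    filter_upwards [h0] with ω hω y _ hs
    exact absurd (hs 0) (hω _ _)
  have hO : Obs fun ζ s => A (fun v => ζ (k0 v)) (alc s) := by
    refine ⟨fun s => ?_, fun v ζ s => ?_, fun ζ s ht => (h4 _ _ _ (step_of ht)).symm,
      fun ζ s ht => ?_⟩
    · exact (measurableSet_setOfPred.1 (h1 (alc s))).comp
        (f := fun (ζ : Om) v => ζ (k0 v)) (by fun_prop)
    · rw [alc_tr, h3 _ (lat_io v)]
      simp only [k0_add]
      rfl
    · rw [alc_nxt]
      exact (h4 _ _ _ (step_of ht)).symm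
  have back : ∀ (ω : Om) Q, A (fun v => ω (io (k0 v))) Q ↔ A ω Q := fun ω Q =>
    h2 _ _ Q fun v hv => by rw [io_k0 hv]
  refine (h p.toMeasure q q0 hq _ hO).imp (fun k => ?_) fun k => ?_
  · filter_upwards [pull _ k] with ω hω y hi hs
    obtain ⟨s, e, hs'⟩ := inf_of hi hs
    exact e ▸ (back ω _).1 (hω s hs')
  · filter_upwards [pull _ k] with ω hω y hi hs
    obtain ⟨s, e, hs'⟩ := inf_of hi hs
    exact fun a => hω s hs' ((back ω _).2 (e ▸ a))

end Pool.Agent.MP_5f6c2d_pr.I29
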