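import Pool.Agent.MP_5f6c2d_pr.I29.Spec

/- The case analysis for two exit states. -/

set_option autoImplicit false

namespace Pool.Agent.MP_5f6c2d_pr.I29

open h58

namespace CasL

def Ds (a b c d : Fin 4) : Prop := a ≠ b ∧ a ≠ c ∧ a ≠ d ∧ b ≠ c ∧ b ≠ d ∧ c ≠ d

theorem perm {a b c d : Fin 4} (h : Ds a b c d) :
    ∃ ρ : P4, ρ 0 = a ∧ ρ 1 = b ∧ ρ 2 = c ∧ ρ 3 = d := by
  obtain ⟨h1, h2, h3, h4, h5, h6⟩ := h
  have i : Function.Injective ![a, b, c, d] := by
    intro x y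
    fin_cases x <;> fin_cases y <;> simp <;> omega
  exact ⟨Equiv.ofBijective _ (Finite.injective_iff_bijective.1 i), rfl, rfl, rfl, rfl⟩

theorem ex2 : ∀ x y : Fin 4, x ≠ y → ∃ r s, Ds r x y s := by unfold Ds; decide

theorem ex1 : ∀ x y n : Fin 4, x ≠ y → x ≠ n → y ≠ n → ∃ r, Ds r x y n := by unfold Ds; decide

theorem be_self (i : Fin 4) (v : Cl) : be i i v = 0 := sub_self _

theorem L_le (x y : Fin 4) (z : St) : L x y z ≤ be x y z.1 ∧ be x y z.1 ≤ L x y z + 1 :=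
  L_cell x y z 0

def J (R : ℤ) (u v : St) : Prop := ∃ (ρ : P4) (g : Cl), (∀ i j, be i j g + 2 ≤ R) ∧
  L (ρ 1) (ρ 2) u + 1 ≤ be (ρ 1) (ρ 2) g ∧ be (ρ 1) (ρ 2) g + 1 ≤ L (ρ 1) (ρ 2) v ∧
  L (ρ 0) (ρ 3) u + 1 ≤ be (ρ 0) (ρ 3) g ∧ L (ρ 0) (ρ 3) v + 1 ≤ be (ρ 0) (ρ 3) g

theorem join {R : ℤ} {u v : St} {a b c d : Fin 4} (h : Ds a b c d) (m : ℤ) (m1 : 2 - R ≤ m)
    (m2 : m ≤ R - 2) (h1 : L b c u + 1 ≤ m) (h2 : m + 1 ≤ L b c v) (h3 : L a d u ≤ R - 3)
    (h4 : L a d v ≤ R - 3) : J R u v := by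
  obtain ⟨ρ, rfl, rfl, rfl, rfl⟩ := perm h
  refine ⟨ρ, (R - 2) • w (ρ 0) + ((R - 2 - m) / 2 + m) • w (ρ 1) + ((R - 2 - m) / 2) • w (ρ 2),
    fun i j => ?_, ?_, ?_, ?_, ?_⟩
  · obtain ⟨α, rfl⟩ := ρ.surjective i
    obtain ⟨β, rfl⟩ := ρ.surjective j
    simp only [be_add, be_smul, be_w, EmbeddingLike.apply_eq_iff_eq]
    fin_cases α <;> fin_cases β <;> simp <;> omega
  all_goals
    simp only [be_add, be_smul, be_w, EmbeddingLike.apply_eq_iff_eq]
    simp
    omega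

theorem cor {R : ℤ} {z : St} {a b c d : Fin 4} (h : Ds a b c d) (h1 : R - 10 ≤ be a d z.1)
    (h2 : R - 10 ≤ be b c z.1) : Cor R z := by
  obtain ⟨ρ, rfl, rfl, rfl, rfl⟩ := perm h
  exact ⟨ρ, h1, h2⟩

theorem typ {R : ℤ} {z : St} (hR : 20 ≤ R) (o : Out R z) (c : ¬ Cor R z) :
    (∀ k, k ≠ z.2 0 → 6 ≤ be (z.2 0) k z.1) ∨ ∀ l, l ≠ z.2 3 → 6 ≤ be l (z.2 3) z.1 := by
  by_contra h
  push Not at h
  obtain ⟨⟨k, k1, k2⟩, l, l1, l2⟩ := h
  have e := o.2
  have t1 := be_tri (z.2 0) k l z.1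
  have t2 := be_tri (z.2 0) l (z.2 3) z.1
  refine c (cor (a := z.2 0) (b := k) (c := l) (d := z.2 3)
    ⟨k1.symm, ?_, p_ne z (by decide), ?_, ?_, l1⟩ (by omega) (by omega))
  · rintro rfl; omega
  · rintro rfl; have := be_self k z.1; omega
  · rintro rfl; omega

theorem ins_top {R : ℤ} {z : St} (hR : 20 ≤ R) (o : Out R z)
    (h : ∀ k, k ≠ z.2 0 → 1 ≤ be (z.2 0) k z.1) : Ins R (sh z (-w (z.2 0))) := by
  intro x y
  have a := L_le x y z
  have b := o.1 x y
  rw [L_sh, be_neg, be_w]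
  by_cases hx : x = z.2 0 <;> by_cases hy : y = z.2 0
  · rw [hx, hy, L_self]; omega
  · rw [if_pos hx, if_neg hy]; omega
  · have := h x hx
    have := be_anti (z.2 0) x z.1
    rw [if_neg hx, if_pos hy]; subst hy; omega
  · have := h x hx
    have := be_tri (z.2 0) x y z.1
    have := o.1 (z.2 0) y
    rw [if_neg hx, if_neg hy]; omega

theorem ins_bot {R : ℤ} {z : St} (hR : 20 ≤ R) (o : Out R z)
    (h : ∀ l, l ≠ z.2 3 → 1 ≤ be l (z.2 3) z.1) : Ins R (sh z (w (z.2 3))) := by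
  intro x y
  have a := L_le x y z
  have b := o.1 x y
  rw [L_sh, be_w]
  by_cases hx : x = z.2 3 <;> by_cases hy : y = z.2 3
  · rw [hx, hy, L_self]; omega
  · have := h y hy
    have := be_anti (z.2 3) y z.1
    rw [if_pos hx, if_neg hy]; subst hx; omega
  · rw [if_neg hx, if_pos hy]; omega
  · have := h y hy
    have := be_tri x y (z.2 3) z.1
    have := o.1 x (z.2 3)
    rw [if_neg hx, if_neg hy]; omega

theorem own {R : ℤ} {z : St} (hR : 20 ≤ R) (o : Out R z) (c : ¬ Cor R z) :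
    ∃ t, Dir z t ∧ Ins R (sh z t) := by
  rcases typ hR o c with h | h
  · exact ⟨_, Or.inr rfl, ins_top hR o fun k hk => by have := h k hk; omega⟩
  · exact ⟨_, Or.inl rfl, ins_bot hR o fun k hk => by have := h k hk; omega⟩

theorem rng {z : St} {t : Cl} (d : Dir z t) (x y : Fin 4) :
    be x y z.1 - 2 ≤ L x y (sh z t) ∧ L x y (sh z t) ≤ be x y z.1 + 1 := by
  have a := L_le x y z
  rcases d with rfl | rfl <;> simp only [L_sh, be_neg, be_w] <;> split_ifs <;> omega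

theorem far {R : ℤ} {z z' : St} {t t' : Cl} (hR : 20 ≤ R) (c : ¬ Cor R z) (d : Dir z t)
    (d' : Dir z' t') (i : Ins R (sh z t)) (i' : Ins R (sh z' t')) {x y : Fin 4}
    (h : be x y z.1 + 6 ≤ be x y z'.1) : J R (sh z t) (sh z' t') := by
  have hxy : x ≠ y := by rintro rfl; rw [be_self, be_self] at h; omega
  obtain ⟨r, s, d1, d2, d3, d4, d5, d6⟩ := ex2 x y hxy
  have a1 := rng d x y
  have a2 := rng d' x y
  have a3 := rng d y x
  have a4 := rng d r s
  have a5 := rng d s r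
  have b1 := L_anti hxy (sh z t)
  have b2 := L_anti hxy (sh z' t')
  have b3 := L_anti d3 (sh z t)
  have b4 := L_anti d3 (sh z' t')
  have c1 := i y x
  have c2 := i' x y
  by_contra n
  have j1 := mt (fun k : _ ∧ _ => join (R := R) (u := sh z t) (v := sh z' t')
    ⟨d1, d2, d3, d4, d5, d6⟩ (L x y (sh z' t') - 1) (by omega) (by omega) (by omega) (by omega)
    k.1 k.2) n
  have j2 := mt (fun k : _ ∧ _ => join (R := R) (u := sh z t) (v := sh z' t')
    ⟨d5.symm, d6.symm, d3.symm, d4, d1.symm, d2.symm⟩ (L x y (sh z' t') - 1) (by omega) (by omega)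
    (by omega) (by omega) k.1 k.2) n
  have j3 := mt (fun k : _ ∧ _ ∧ _ ∧ _ => join (R := R) (u := sh z t) (v := sh z' t')
    ⟨d1.symm, d5, d4, d3, d2, d6.symm⟩ 0 (by omega) (by omega) k.1 k.2.1 k.2.2.1 k.2.2.2) n
  have j4 := mt (fun k : _ ∧ _ ∧ _ ∧ _ => join (R := R) (u := sh z t) (v := sh z' t')
    ⟨d2.symm, d6, d4.symm, d3, d1, d5.symm⟩ 0 (by omega) (by omega) k.1 k.2.1 k.2.2.1 k.2.2.2) n
  have j5 := mt (fun k : _ ∧ _ ∧ _ ∧ _ => join (R := R) (u := sh z t) (v := sh z' t')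
    ⟨d5, d1.symm, d4, d3.symm, d6.symm, d2⟩ 0 (by omega) (by omega) k.1 k.2.1 k.2.2.1 k.2.2.2) n
  have j6 := mt (fun k : _ ∧ _ ∧ _ ∧ _ => join (R := R) (u := sh z t) (v := sh z' t')
    ⟨d6, d2.symm, d4.symm, d3.symm, d5.symm, d1⟩ 0 (by omega) (by omega)
    k.1 k.2.1 k.2.2.1 k.2.2.2) n
  have k1 := mt (fun k : _ ∧ _ => cor (R := R) (z := z) ⟨d1, d2, d3, d4, d5, d6⟩ k.1 k.2) c
  have k2 := mt (fun k : _ ∧ _ => cor (R := R) (z := z)
    ⟨d2, d1, d3, d4.symm, d6, d5⟩ k.1 k.2) c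
  have k3 := mt (fun k : _ ∧ _ => cor (R := R) (z := z)
    ⟨d5.symm, d6.symm, d3.symm, d4, d1.symm, d2.symm⟩ k.1 k.2) c
  have k4 := mt (fun k : _ ∧ _ => cor (R := R) (z := z)
    ⟨d6.symm, d5.symm, d3.symm, d4.symm, d2.symm, d1.symm⟩ k.1 k.2) c
  omega

theorem tri3 (z : St) {e : Fin 4} (he : e = 0 ∨ e = 3) : ∃ p q r : Fin 4, Ds p q r (z.2 e) ∧
    L p r z = L p q z + L q r z ∧
    (∃ k, k ≠ 0 ∧ be p q (cell z k) = L p q z ∧ be q r (cell z k) = L q r z) ∧
    (∃ k, k ≠ 0 ∧ be p q (cell z k) = L p q z + 1 ∧ be q r (cell z k) = L q r z) ∧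
    ∃ k, k ≠ 0 ∧ be p q (cell z k) = L p q z ∧ be q r (cell z k) = L q r z + 1 := by
  rcases he with rfl | rfl
  · refine ⟨z.2 1, z.2 2, z.2 3, by simp [Ds], ?_, ⟨1, by decide, ?_⟩, ⟨2, by decide, ?_⟩,
      3, by decide, ?_⟩ <;> simp [L, cell_1, cell_2, cell_3, be_add, be_sub, be_w, be_tri]
  · refine ⟨z.2 0, z.2 1, z.2 2, by simp [Ds], ?_, ⟨3, by decide, ?_⟩, ⟨1, by decide, ?_⟩,
      2, by decide, ?_⟩ <;> simp [L, cell_1, cell_2, cell_3, be_add, be_sub, be_w, be_tri]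

theorem thr : ∀ p q r n x : Fin 4, Ds p q r n → x ≠ n → x = p ∨ x = q ∨ x = r := by
  unfold Ds; intros; omega

theorem share {z z' : St} {e : Fin 4} (he : e = 0 ∨ e = 3) (h : z'.2 e = z.2 e)
    (hL : ∀ x y, x ≠ z.2 e → y ≠ z.2 e → L x y z' ≤ L x y z + 1) :
    ∃ k, k ≠ 0 ∧ ∃ k', k' ≠ 0 ∧ ∀ x y, x ≠ z.2 e → y ≠ z.2 e →
      be x y (cell z k) = be x y (cell z' k') := by
  have s1 : ∃ k, k ≠ 0 ∧ ∀ x y, x ≠ z.2 e → y ≠ z.2 e → be x y (cell z k) ≤ L x y z' + 1 := by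
    obtain ⟨p, q, r, d, e0, ⟨k1, a1, a2, a3⟩, ⟨k2, b1, b2, b3⟩, k3, c1, c2, c3⟩ := tri3 z he
    obtain ⟨d1, d2, d3, d4, d5, d6⟩ := id d
    have key : ∀ c : Cl, L p q z' ≤ be p q c ∧ be p q c ≤ L p q z' + 1 ∧ L q r z' ≤ be q r c ∧
        be q r c ≤ L q r z' + 1 ∧ L p r z' ≤ be p q c + be q r c ∧
        be p q c + be q r c ≤ L p r z' + 1 →
        ∀ x y, x ≠ z.2 e → y ≠ z.2 e → be x y c ≤ L x y z' + 1 := by
      intro c hc x y hx hy
      have := be_tri p q r c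
      have := be_anti p q c
      have := be_anti q r c
      have := be_anti p r c
      have := L_anti d1 z'
      have := L_anti d2 z'
      have := L_anti d4 z'
      rcases thr p q r _ x d hx with rfl | rfl | rfl <;>
        rcases thr _ _ _ _ y d hy with rfl | rfl | rfl <;>
        first | omega | (rw [be_self, L_self]; omega)
    have := hL p q d3 d5
    have := hL q p d5 d3
    have := hL q r d5 d6
    have := hL r q d6 d5
    have := hL p r d3 d6
    have := hL r p d6 d3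
    have := L_anti d1 z
    have := L_anti d2 z
    have := L_anti d4 z
    have := L_anti d1 z'
    have := L_anti d2 z'
    have := L_anti d4 z'
    have := L_tri p q r z'
    by_contra n
    have n1 := mt (fun k => ⟨k1, a1, key _ k⟩) n
    have n2 := mt (fun k => ⟨k2, b1, key _ k⟩) n
    have n3 := mt (fun k => ⟨k3, c1, key _ k⟩) n
    omega
  obtain ⟨k, hk, s⟩ := s1
  refine ⟨k, hk, ?_⟩
  generalize cell z k = c at s
  obtain ⟨p, q, r, d, e0, ⟨k1, a1, a2, a3⟩, ⟨k2, b1, b2, b3⟩, k3, c1, c2, c3⟩ := tri3 z' he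
  rw [h] at d
  obtain ⟨d1, d2, d3, d4, d5, d6⟩ := id d
  have key : ∀ c' : Cl, be p q c = be p q c' ∧ be q r c = be q r c' →
      ∀ x y, x ≠ z.2 e → y ≠ z.2 e → be x y c = be x y c' := by
    intro c' hc x y hx hy
    unfold be at hc ⊢
    rcases thr p q r _ x d hx with rfl | rfl | rfl <;>
      rcases thr _ _ _ _ y d hy with rfl | rfl | rfl <;> omega
  have := s p q d3 d5
  have := s q p d5 d3
  have := s q r d5 d6
  have := s r q d6 d5
  have := s p r d3 d6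
  have := be_tri p q r c
  have := be_anti p q c
  have := be_anti q r c
  have := L_anti d1 z'
  have := L_anti d4 z'
  by_contra n
  have n1 := mt (fun k => ⟨k1, a1, key _ k⟩) n
  have n2 := mt (fun k => ⟨k2, b1, key _ k⟩) n
  have n3 := mt (fun k => ⟨k3, c1, key _ k⟩) n
  omega

theorem wall {R : ℤ} {z : St} (o : Out R z) {k : Fin 4} (hk : k ≠ 0) :
    be (z.2 0) (z.2 3) (cell z k) = R + 1 ∧ ∀ x y, be x y (cell z k) ≤ R + 1 :=
  ⟨by rw [L_wall z k hk, L_own, o.2], fun x y => by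
    have := L_cell x y z k
    have := L_le x y z
    have := o.1 x y
    omega⟩

theorem ext_n {c c' : Cl} {n m : Fin 4} (hm : m ≠ n) (h : be n m c = be n m c')
    (k : ∀ x y, x ≠ n → y ≠ n → be x y c = be x y c') : c = c' := by
  have : ∀ x, be x m c = be x m c' := fun x => by
    by_cases e : x = n
    · rw [e, h]
    · exact k x m e hm
  refine be_ext fun x y => ?_
  have a := this x
  have b := this y
  unfold be at a b ⊢
  omega

end CasL

open CasL in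
theorem cas : Cas := by
  intro R z z' hR o o' c c'
  by_cases f : ∃ x y, be x y z.1 + 6 ≤ be x y z'.1
  · obtain ⟨x, y, f⟩ := f
    obtain ⟨t, d, i⟩ := own hR o c
    obtain ⟨t', d', i'⟩ := own hR o' c'
    exact ⟨t, t', d, d', i, i', Or.inr (far hR c d d' i i' f)⟩
  push Not at f
  have n03 : z.2 3 ≠ z.2 0 := p_ne z (by decide)
  have n03' : z'.2 3 ≠ z'.2 0 := p_ne z' (by decide)
  rcases typ hR o c with h | h
  · have h' : ∀ k, k ≠ z.2 0 → 1 ≤ be (z.2 0) k z'.1 := fun k hk => by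
      have := h k hk
      have := f k (z.2 0)
      have := be_anti (z.2 0) k z.1
      have := be_anti (z.2 0) k z'.1
      omega
    have e : z'.2 0 = z.2 0 := by
      by_contra n
      have := h' _ n
      have := be_tri (z.2 0) (z'.2 0) (z'.2 3) z'.1
      have := o'.1 (z.2 0) (z'.2 3)
      have := o'.2
      omega
    have d : Dir z (-w (z.2 0)) := Or.inr rfl
    have d' : Dir z' (-w (z.2 0)) := Or.inr (by rw [e])
    have i' : Ins R (sh z' (-w (z.2 0))) := e ▸ ins_top hR o' (e ▸ h')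
    refine ⟨_, _, d, d', ins_top hR o fun k hk => by have := h k hk; omega, i', ?_⟩
    by_cases g : ∀ x y, x ≠ z.2 0 → y ≠ z.2 0 → L x y z' ≤ L x y z + 1
    · obtain ⟨k, hk, k', hk', s⟩ := share (Or.inl rfl) e g
      refine Or.inl ⟨rfl, k, hk, k', hk', ext_n n03 ?_ s⟩
      obtain ⟨a1, a2⟩ := wall o hk
      obtain ⟨b1, b2⟩ := wall o' hk'
      rw [e] at b1 n03'
      have := s _ _ n03 n03'
      have := a2 (z.2 0) (z'.2 3)
      have := b2 (z.2 0) (z.2 3)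
      unfold be at *
      omega
    · push Not at g
      obtain ⟨x, y, hx, hy, g⟩ := g
      have hxy : x ≠ y := by rintro rfl; rw [L_self, L_self] at g; omega
      obtain ⟨r, dd⟩ := ex1 x y _ hxy hx hy
      have := rng d x y
      have := rng d r (z.2 0)
      have := rng d' r (z.2 0)
      have := i' x y
      have := h y hy
      have := h r dd.2.2.1
      have := h' r dd.2.2.1
      have := o.1 (z.2 0) x
      have := L_sh x y z (-w (z.2 0))
      have := L_sh x y z' (-w (z.2 0))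
      refine Or.inr (join dd (L x y (sh z (-w (z.2 0))) + 1) ?_ ?_ ?_ ?_ ?_ ?_) <;>
        unfold be at * <;> omega
  · have h' : ∀ k, k ≠ z.2 3 → 1 ≤ be k (z.2 3) z'.1 := fun k hk => by
      have := h k hk
      have := f (z.2 3) k
      have := be_anti (z.2 3) k z.1
      have := be_anti (z.2 3) k z'.1
      omega
    have e : z'.2 3 = z.2 3 := by
      by_contra n
      have := h' _ n
      have := be_tri (z'.2 0) (z'.2 3) (z.2 3) z'.1
      have := o'.1 (z'.2 0) (z.2 3)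
      have := o'.2
      omega
    have d : Dir z (w (z.2 3)) := Or.inl rfl
    have d' : Dir z' (w (z.2 3)) := Or.inl (by rw [e])
    have i' : Ins R (sh z' (w (z.2 3))) := e ▸ ins_bot hR o' (e ▸ h')
    refine ⟨_, _, d, d', ins_bot hR o fun k hk => by have := h k hk; omega, i', ?_⟩
    by_cases g : ∀ x y, x ≠ z.2 3 → y ≠ z.2 3 → L x y z' ≤ L x y z + 1
    · obtain ⟨k, hk, k', hk', s⟩ := share (Or.inr rfl) e g
      refine Or.inl ⟨rfl, k, hk, k', hk', ext_n n03.symm ?_ s⟩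
      obtain ⟨a1, a2⟩ := wall o hk
      obtain ⟨b1, b2⟩ := wall o' hk'
      rw [e] at b1 n03'
      have := s _ _ n03.symm n03'.symm
      have := a2 (z'.2 0) (z.2 3)
      have := b2 (z.2 0) (z.2 3)
      unfold be at *
      omega
    · push Not at g
      obtain ⟨x, y, hx, hy, g⟩ := g
      have hxy : x ≠ y := by rintro rfl; rw [L_self, L_self] at g; omega
      obtain ⟨r, d1, d2, d3, d4, d5, d6⟩ := ex1 x y _ hxy hx hy
      have := rng d x y
      have := rng d (z.2 3) r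
      have := rng d' (z.2 3) r
      have := i' x y
      have := h x hx
      have := h r d3
      have := h' r d3
      have := o.1 y (z.2 3)
      have := L_sh x y z (w (z.2 3))
      have := L_sh x y z' (w (z.2 3))
      refine Or.inr (join ⟨d5.symm, d6.symm, d3.symm, d4, d1.symm, d2.symm⟩
        (L x y (sh z (w (z.2 3))) + 1) ?_ ?_ ?_ ?_ ?_ ?_) <;> unfold be at * <;> omega

end Pool.Agent.MP_5f6c2d_pr.I29
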