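import Pool.Agent.MP_5f6c2d_pr.I29.Spec

/- Two exit states of opposite chirality can be joined inside the polytope. -/

set_option autoImplicit false

namespace Pool.Agent.MP_5f6c2d_pr.I29

open scoped Classical
open h58

namespace ConL

theorem cell_flip (s : St) {k : Fin 4} (hk : k ≠ 0) : cell (h58.flip s) k = cell s k := by
  fin_cases k
  exacts [absurd rfl hk, cell_flip1 s, cell_flip2 s, cell_flip3 s]

theorem cell_hull (u T : St) (k : Fin 4) : cell u k ∈ Hull u T := fun i j => by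
  have := (L_cell i j u k).2
  omega

theorem hull_lam {R : ℤ} {u T : St} (hu : Ins R u) (hT : Ins R T) {v : Cl} (h : v ∈ Hull u T) :
    v ∈ Lam R := fun i j => by
  have a := h i j
  have b := hu i j
  have c := hT i j
  omega

theorem out_cell {R : ℤ} {z : St} (o : Out R z) {k : Fin 4} (hk : k ≠ 0) : cell z k ∉ Lam R :=
  fun h => by
    have a := h (z.2 0) (z.2 3)
    have b := L_wall z k hk
    have c := L_own z
    have d := o.2
    omega

theorem own {R : ℤ} {z : St} {t : Cl} (o : Out R z) (d : Dir z t) :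
    L (z.2 0) (z.2 3) (sh z t) = R - 1 := by
  have n : z.2 0 ≠ z.2 3 := p_ne z (by decide)
  rw [L_sh, L_own, o.2]
  rcases d with rfl | rfl
  · rw [be_w, if_neg n, if_pos rfl]
    ring
  · rw [be_neg, be_w, if_pos rfl, if_neg n.symm]
    ring

theorem rev {ω : Om} {s s' : St} {n : ℕ} (h : X ω s n = s') :
    X ω (h58.flip s') n = h58.flip s := by
  have := X_rev ω s n n le_rfl
  rwa [h, Nat.sub_self, X_zero] at this

theorem arr {R : ℤ} {ω ω' : Om} {z T : St} {n : ℕ} (o : Out R z) (tz : tri ω z)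
    (e : ∀ v, v ∉ Lam R → ω' v = ω v) (h : X ω' (h58.flip z) n = T) :
    tri ω' T ∧ (chi ω' T ↔ ¬ chi ω z) := by
  have c : ∀ k : Fin 4, k ≠ 0 → ω' (cell z k) = ω (cell z k) := fun k hk => e _ (out_cell o hk)
  have t : tri ω' (h58.flip z) := (tri_flip _ _).2 ((tri_congr c).2 tz)
  rw [← h]
  exact ⟨tri_X t n, by rw [chi_X t, chi_flip, chi_congr rfl c]⟩

theorem eg (h1 : Gal) {R : ℤ} {z T : St} {t : Cl} {ω : Om} (o : Out R z) (d : Dir z t)
    (tz : tri ω z) (iT : Ins R T) (hl : L (T.2 0) (T.2 3) (sh z t) ≤ L (T.2 0) (T.2 3) T)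
    (hne : T ≠ sh z t) :
    ∃ ω₁ : Om, (∀ v, v ∉ Hull (sh z t) T → ω₁ v = ω v) ∧
      (∀ k : Fin 4, k ≠ 0 → ω₁ (cell (sh z t) k) = ω (cell z k)) ∧
      ∃ n, ∀ ω₂ : Om, (∀ v ∈ Hull (sh z t) T, ω₂ v = ω₁ v) →
        (∀ k : Fin 4, k ≠ 0 → ω₂ (cell z k) = ω (cell z k)) → X ω₂ (h58.flip z) n = T := by
  have lv := own o d
  have n : z.2 0 ≠ z.2 3 := p_ne z (by decide)
  obtain ⟨ω₀, a0, b0⟩ : ∃ ω₀ : Om, (∀ k : Fin 4, k ≠ 0 → ω₀ (cell (sh z t) k) = ω (cell z k)) ∧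
      ∀ v, v ∉ Hull (sh z t) T → ω₀ v = ω v := by
    obtain ⟨n1, n2, n3⟩ := cell_ne (sh z t)
    refine ⟨fun v => if v = cell (sh z t) 1 then ω (cell z 1) else
      if v = cell (sh z t) 2 then ω (cell z 2) else
      if v = cell (sh z t) 3 then ω (cell z 3) else ω v, fun k hk => ?_, fun v hv => ?_⟩
    · fin_cases k
      · exact absurd rfl hk
      · exact if_pos rfl
      · exact (if_neg n1.symm).trans (if_pos rfl)
      · exact (if_neg n2.symm).trans ((if_neg n3.symm).trans (if_pos rfl))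
    · have c : ∀ k, v ≠ cell (sh z t) k := fun k e => hv (e ▸ cell_hull _ _ k)
      exact (if_neg (c 1)).trans ((if_neg (c 2)).trans (if_neg (c 3)))
  obtain ⟨ω₁, e1, e2, m, e3⟩ := h1 ω₀ (h58.flip (sh z t)) T
    ((tri_flip _ _).2 ((tri_congr a0).2 tz))
    (by
      have f := L_flip_own (sh z t)
      have g := iT (z.2 0) (z.2 3)
      rw [flip_0, flip_3]
      change L (z.2 0) (z.2 3) _ = L (z.2 0) (z.2 3) _ + 1 at f
      change L (z.2 3) (z.2 0) _ + 1 ≤ L (z.2 3) (z.2 0) T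
      rw [L_anti n, L_anti n]
      omega)
    (by rwa [h58.flip_flip]) (by rwa [h58.flip_flip])
  rw [h58.flip_flip] at e1 e3
  have a1 : ∀ k : Fin 4, k ≠ 0 → ω₁ (cell (sh z t) k) = ω (cell z k) := fun k hk => by
    have := e2 k hk
    rw [cell_flip _ hk] at this
    rw [this, a0 k hk]
  refine ⟨ω₁, fun v hv => (e1 v hv).trans (b0 v hv), a1, 3 + m, fun ω₂ f1 f2 => ?_⟩
  rw [← X_add, extr ((tri_congr f2).2 tz) d fun k hk => by
    rw [f1 _ (cell_hull _ _ k), a1 k hk, f2 k hk]]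
  exact e3 ω₂ f1

end ConL

open ConL in
theorem con (h1 : Gal) (h2 : Gad) (h3 : Cas) : Con := by
  intro R ω z₁ z₂ hR o₁ o₂ c₁ c₂ t₁ t₂ hc
  obtain ⟨a₁, a₂, d₁, d₂, i₁, i₂, h⟩ := h3 R z₁ z₂ hR o₁ o₂ c₁ c₂
  rcases h with ⟨rfl, k, hk, k', hk', e⟩ | ⟨ρ, g, hg, l1, l2, l3, l4⟩
  · obtain ⟨ω₁, e1, e2, n, e3⟩ := eg h1 (T := sh z₂ a₁) o₁ d₁ t₁ i₂
      (by
        have a := own o₂ d₂
        have b := i₁ (z₂.2 0) (z₂.2 3)
        change L (z₂.2 0) (z₂.2 3) _ ≤ L (z₂.2 0) (z₂.2 3) _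
        omega)
      (fun q => hc (by
        have q1 : z₂.1 + a₁ = z₁.1 + a₁ := congrArg Prod.fst q
        have q2 : (sh z₂ a₁).2 = (sh z₁ a₁).2 := congrArg Prod.snd q
        have : z₂ = z₁ := Prod.ext (add_right_cancel q1) q2
        rw [this]))
    have f : ∀ v, v ∉ Lam R → ω₁ v = ω v := fun v hv => e1 v fun q => hv (hull_lam i₁ i₂ q)
    have x1 := e3 ω₁ (fun _ _ => rfl) fun j hj => f _ (out_cell o₁ hj)
    obtain ⟨r1, r2⟩ := arr o₁ t₁ f x1
    have col := chi_col (s' := z₂) r1 t₂ rfl (by tauto) hk'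
      (by rw [cell_sh, ← e, ← cell_sh, e2 k hk])
    have c : ∀ j : Fin 4, j ≠ 0 → ω₁ (cell z₂ j) = ω (cell z₂ j) :=
      fun j hj => f _ (out_cell o₂ hj)
    have x2 := rev (extr ((tri_congr c).2 t₂) d₂ fun j hj => by rw [col j hj, c j hj])
    rw [h58.flip_flip, h58.flip_flip] at x2
    exact ⟨ω₁, f, n + 3, by rw [← X_add, x1, x2]⟩
  · obtain ⟨T₁, T₂, p1, p2, q1, q2, q3, q4, q5, q6⟩ := h2 ρ g
    have j₁ : Ins R T₁ := fun i j => by
      have a := (q5 i j).1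
      have b := hg i j
      omega
    have j₂ : Ins R T₂ := fun i j => by
      have a := (q5 i j).2
      have b := hg i j
      omega
    have hh := hg (ρ 0) (ρ 3)
    obtain ⟨ω₁, e1, -, n₁, e3⟩ := eg h1 (T := T₁) o₁ d₁ t₁ j₁ (by rw [p1]; omega) fun q => by
      have a := own o₁ d₁
      have b : z₁.2 = ρ := by rw [← p1, q]; rfl
      rw [b, ← q] at a
      omega
    have f1 : ∀ v, v ∉ Lam R → ω₁ v = ω v := fun v hv => e1 v fun q => hv (hull_lam i₁ j₁ q)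
    obtain ⟨ω₂, g1, -, n₂, g3⟩ := eg h1 (T := T₂) (ω := ω₁) o₂ d₂
      ((tri_congr fun j hj => f1 _ (out_cell o₂ hj)).2 t₂) j₂ (by rw [p2]; omega) fun q => by
      have a := own o₂ d₂
      have b : z₂.2 = ρ := by rw [← p2, q]; rfl
      rw [b, ← q] at a
      omega
    have f2 : ∀ v, v ∉ Lam R → ω₂ v = ω₁ v := fun v hv => g1 v fun q => hv (hull_lam i₂ j₂ q)
    have n12 : ρ 1 ≠ ρ 2 := fun q => absurd (ρ.injective q) (by decide)
    have dis : ∀ v ∈ Hull (sh z₁ a₁) T₁, ω₂ v = ω₁ v := fun v hv => g1 v fun q => by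
      have a := hv (ρ 1) (ρ 2)
      have b := q (ρ 2) (ρ 1)
      rw [L_anti n12, L_anti n12, be_anti] at b
      omega
    have go : ∀ ω₃ : Om, (∀ v, ω₃ v ≠ ω₂ v → be (ρ 0) (ρ 3) g + 1 ≤ be (ρ 0) (ρ 3) v ∧
        ∀ i j, be i j v ≤ be i j g + 2) → (∀ v, v ∉ Lam R → ω₃ v = ω v) ∧
        X ω₃ (h58.flip z₁) n₁ = T₁ ∧ X ω₃ (h58.flip z₂) n₂ = T₂ := by
      intro ω₃ s
      have s1 : ∀ v, v ∉ Lam R → ω₃ v = ω₂ v := fun v hv => by
        by_contra q
        exact hv fun i j => ((s v q).2 i j).trans (hg i j)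
      have s2 : ∀ v, be (ρ 0) (ρ 3) v ≤ be (ρ 0) (ρ 3) g → ω₃ v = ω₂ v := fun v hv => by
        by_contra q
        have := (s v q).1
        omega
      have s3 : ∀ v, v ∉ Lam R → ω₃ v = ω v := fun v hv => by rw [s1 v hv, f2 v hv, f1 v hv]
      refine ⟨s3, e3 ω₃ (fun v hv => ?_) fun j hj => s3 _ (out_cell o₁ hj),
        g3 ω₃ (fun v hv => s2 v ?_) fun j hj => ?_⟩
      · rw [← dis v hv]
        refine s2 v ?_
        have := hv (ρ 0) (ρ 3)
        omega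
      · have := hv (ρ 0) (ρ 3)
        omega
      · rw [s1 _ (out_cell o₂ hj), f2 _ (out_cell o₂ hj)]
    obtain ⟨u1, u2, u3⟩ := go ω₂ fun v hv => absurd rfl hv
    obtain ⟨r1, r2⟩ := arr o₁ t₁ u1 u2
    obtain ⟨r3, r4⟩ := arr o₂ t₂ u1 u3
    obtain ⟨ω₃, v1, n, v2⟩ := q6 ω₂ r1 r3 (by tauto)
    obtain ⟨w1, w2, w3⟩ := go ω₃ v1
    have x := rev w3
    rw [h58.flip_flip] at x
    exact ⟨ω₃, w1, n₁ + n + n₂, by rw [← X_add, ← X_add, w2, v2, x]⟩

end Pool.Agent.MP_5f6c2d_pr.I29
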