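import Pool.Agent.MP_5f6c2d_pr.I29.Spec

/- Assembly of the theorem in the alcove model. -/

set_option autoImplicit false
open scoped Classical ENNReal
open MeasureTheory

namespace Pool.Agent.MP_5f6c2d_pr.I29

open h58

theorem ex_pos {μ : Measure Om} {P : Om → St → Prop} (h : ¬ ∀ᵐ ω ∂μ, ∀ s, ¬ P ω s) :
    ∃ s, μ {ω | P ω s} ≠ 0 := by
  by_contra n
  push Not at n
  refine h (ae_all_iff.2 fun s => ?_)
  rw [ae_iff]; simpa using n s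

theorem core (hc : Con) (he : Exi) (hf : Fen) (hm : Mix) (ht : Tai) : Core := by
  intro ν _ q q0 hq A hA
  by_contra hh
  rw [not_or] at hh
  obtain ⟨s₂, p₂⟩ := ex_pos (μ := mu ν) (P := fun ω s => Inf ω s ∧ ¬ A ω s) fun h =>
    hh.1 (h.mono fun ω h s i => by by_contra n; exact h s ⟨i, n⟩)
  obtain ⟨s₁, p₁⟩ := ex_pos (μ := mu ν) (P := fun ω s => Inf ω s ∧ A ω s) fun h =>
    hh.2 (h.mono fun ω h s i n => h s ⟨i, n⟩)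
  have m₁ : MeasurableSet {ω | Inf ω s₁ ∧ A ω s₁} :=
    measurableSet_setOfPred.2 ((meas_Inf _).and (hA.m _))
  have m₂ : ∀ s, MeasurableSet {ω | Inf ω s ∧ ¬ A ω s} := fun s =>
    measurableSet_setOfPred.2 ((meas_Inf _).and (hA.m _).not)
  obtain ⟨v, p₃⟩ := (hm ν _ m₁ p₁).2 _ (m₂ s₂) p₂
  have e : {ω : Om | (fun u => ω ((tr v).φ u)) ∈ {ω | Inf ω s₂ ∧ ¬ A ω s₂}} =
      {ω | Inf ω ((tr v).act s₂) ∧ ¬ A ω ((tr v).act s₂)} := by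
    ext ω; simp only [Set.mem_ofPred_eq, Inf_act, hA.c]
  rw [e] at p₃
  generalize (tr v).act s₂ = s₃ at p₃
  obtain ⟨e1, e2, ⟨N, e3⟩, e4, e5⟩ := he
  have q1 : q ≤ 1 := (hq 0).trans prob_le_one
  obtain ⟨F, p₄⟩ := (hm ν _ (m₁.inter (m₂ s₃)) p₃).1 (q ^ N) (pow_ne_zero _ q0)
  obtain ⟨R₀, r⟩ := e4 (F ∪ {s₁.1, s₃.1, (h58.flip s₃).1})
  obtain ⟨r1, r2⟩ := r (max R₀ 20) (le_max_left _ _)
  have r3 : (20 : ℤ) ≤ max R₀ 20 := le_max_right _ _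
  generalize max R₀ 20 = R at r1 r2 r3
  clear r e4
  replace e2 := e2 R
  replace e3 := e3 R
  generalize Zon R = Z at r2 e2 e3
  refine p₄ {ω | ∀ v ∈ Z, ω v = (fun _ => 0 : Om) v} ?_ ?_
    ((pow_le_pow_right_of_le_one' q1 e3).trans (hf ν q hq _ _).1) ?_
  · exact measurableSet_setOfPred.2 (Measurable.forall fun v => measurable_const.imp (by fun_prop))
  · intro ω ω' a c u hu
    rw [← a u fun n => r2 u hu (Finset.mem_union_left _ n)]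
    exact c u hu
  set G := (e5 R).toFinset with hG
  have key : ∀ᵐ ω ∂(mu ν), ∀ x : (G → Fin 3) × St, Inf ω x.2 →
      tri (md G (fun u => if h : u ∈ G then x.1 ⟨u, h⟩ else 0) ω) x.2 →
      (∀ t, X (md G (fun u => if h : u ∈ G then x.1 ⟨u, h⟩ else 0) ω) x.2 t = X ω x.2 t) →
      (A ω x.2 ↔ A (md G (fun u => if h : u ∈ G then x.1 ⟨u, h⟩ else 0) ω) x.2) :=
    ae_all_iff.2 fun x => ht ν q q0 hq A hA _ _ _
  refine measure_mono_null ?_ (ae_iff.1 key)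
  rintro ω ⟨⟨⟨i₁, a₁⟩, i₃, a₃⟩, hz⟩ k
  obtain ⟨s, i₂, a₂, l₂, c₂⟩ : ∃ s, Inf ω s ∧ ¬ A ω s ∧ s.1 ∈ Lam R ∧ ¬ (chi ω s₁ ↔ chi ω s) := by
    by_cases c : chi ω s₁ ↔ chi ω s₃
    · exact ⟨h58.flip s₃, i₃.flip, by rwa [hA.f _ _ i₃.1], r1 _ (by simp),
        by rw [chi_flip]; tauto⟩
    · exact ⟨s₃, i₃, a₃, r1 _ (by simp), c⟩
  obtain ⟨t₁, o₁, u₁⟩ := e1 R ω s₁ i₁ (r1 _ (by simp))
  obtain ⟨t₂, o₂, u₂⟩ := e1 R ω s i₂ l₂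
  have j₁ := i₁.X t₁
  have j₂ := i₂.X t₂
  obtain ⟨ω', d, n, hn⟩ := hc R ω _ _ r3 o₁ o₂ (e2 ω _ o₁ j₁.1 hz) (e2 ω _ o₂ j₂.1 hz) j₁.1 j₂.1
    (by rwa [chi_X i₁.1, chi_X i₂.1])
  have em : md G (fun u => if h : u ∈ G then (fun u : G => ω' u.1) ⟨u, h⟩ else 0) ω = ω' := by
    funext u
    unfold md
    split_ifs with h
    · exact dif_pos h
    · exact (d u (by simpa [hG] using h)).symm
  have k₁ := k (fun u => ω' u.1, X ω s₁ t₁) j₁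
  have k₂ := k (fun u => ω' u.1, X ω s t₂) j₂
  rw [em] at k₁ k₂
  have w₁ := (tri_congr (u₁ ω' d).1).2 j₁.1
  have w₂ := (tri_congr (u₂ ω' d).1).2 j₂.1
  have b₁ := k₁ w₁ (u₁ ω' d).2
  have b₂ := k₂ w₂ (u₂ ω' d).2
  rw [hA.X i₁.1] at b₁
  rw [hA.X i₂.1, ← hn, hA.X ((tri_flip _ _).2 w₁), hA.f _ _ w₁] at b₂
  exact a₂ (b₂.2 (b₁.1 a₁))

end Pool.Agent.MP_5f6c2d_pr.I29
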