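import Pool.Agent.MP_5f6c2d_pr.I29.Spec

/- The last exit from the polytope, and the corner zones. -/

set_option autoImplicit false

namespace Pool.Agent.MP_5f6c2d_pr.I29

open scoped Classical
open h58

attribute [local irreducible] Zon

namespace ExiL

theorem mem_zon {R : ℤ} {v : Cl} : v ∈ Zon R ↔ ∃ (ρ : P4) (d : Cl),
    ((fun _ => -30) ≤ d ∧ d ≤ fun _ => 30) ∧ R • (w (ρ 0) + w (ρ 1)) + d = v := by
  simp only [Zon, Finset.mem_image, Finset.mem_product, Finset.mem_univ, true_and, Finset.mem_Icc,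
    Prod.exists]

theorem card_zon : ∃ N : ℕ, ∀ R, (Zon R).card ≤ N := by
  unfold Zon
  exact ⟨_, fun R => Finset.card_image_le⟩

theorem be_k (k : Fin 3) (v : Cl) : be k.castSucc 3 v = v k := by fin_cases k <;> simp [be, b]

theorem box {R : ℤ} {v : Cl} (h : v ∈ Lam R) : (fun _ => -R) ≤ v ∧ v ≤ fun _ => R := by
  refine ⟨fun k => ?_, fun k => be_k k v ▸ h _ _⟩
  have := h 3 k.castSucc
  rw [be_anti, be_k] at this
  exact neg_le.1 this

theorem fin (R : ℤ) : (Lam R).Finite := (Set.finite_Icc _ _).subset fun _ h => box h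

theorem c_rot (y : St) (k : Fin 4) : ∃ k', cell (rot y) k' = cell y k := by
  fin_cases k
  exacts [⟨3, cell_rot3 y⟩, ⟨0, cell_rot0 y⟩, ⟨1, cell_rot1 y⟩, ⟨2, cell_rot2 y⟩]

theorem c_turn (ω : Om) (y : St) (k : Fin 4) : ∃ k', cell (turn ω y) k' = cell y k := by
  obtain ⟨k1, h1⟩ := c_rot y k
  obtain ⟨k2, h2⟩ := c_rot (rot y) k1
  obtain ⟨k3, h3⟩ := c_rot (rot (rot y)) k2
  unfold turn
  split_ifs
  exacts [⟨k1, h1⟩, ⟨k2, h2.trans h1⟩, ⟨k3, h3.trans (h2.trans h1)⟩, ⟨k, rfl⟩]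

theorem out {R : ℤ} {z : St} (h0 : z.1 ∈ Lam R) (h1 : cell z 1 ∉ Lam R) (h3 : cell z 3 ∉ Lam R) :
    Out R z := by
  obtain ⟨i, j, a⟩ : ∃ i j, R < be i j (cell z 1) := by simpa [Lam] using h1
  obtain ⟨i', j', c⟩ : ∃ i j, R < be i j (cell z 3) := by simpa [Lam] using h3
  rw [cell_1, be_add, be_w] at a
  rw [cell_3, be_sub, be_w] at c
  have a1 := h0 i j
  have c1 := h0 i' j'
  have e1 : i = z.2 0 := by_contra fun n => by split_ifs at a <;> omega
  have e2 : j' = z.2 3 := by_contra fun n => by split_ifs at c <;> omega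
  have a2 : R ≤ be i j z.1 := by split_ifs at a <;> omega
  have c2 : R ≤ be i' j' z.1 := by split_ifs at c <;> omega
  have d1 := h0 i' j
  have d2 := h0 i j'
  refine ⟨h0, ?_⟩
  rw [← e1, ← e2]
  unfold be at *
  omega

theorem exit (R : ℤ) (ω : Om) (s : St) (h : Inf ω s) (hs : s.1 ∈ Lam R) :
    ∃ T, Out R (X ω s T) ∧ ∀ t, T ≤ t → ∀ k, cell (h58.flip (X ω s t)) k ∉ Lam R := by
  have inj : Function.Injective fun t => h58.flip (X ω s t) := fun t t' e =>
    h.inj (by simpa using congrArg h58.flip e)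
  obtain ⟨M, hM⟩ := (((fin (R + 1)).prod (Set.finite_univ (α := P4))).preimage inj.injOn).bddAbove
  have ex : ∃ T, ∀ t, T ≤ t → ∀ k, cell (h58.flip (X ω s t)) k ∉ Lam R :=
    ⟨M + 1, fun t ht k hk => by
      have : t ≤ M := hM ⟨fun i j => by
        have a := (L_cell i j (h58.flip (X ω s t)) k).1
        have c := (L_cell i j (h58.flip (X ω s t)) 0).2
        have d := hk i j
        exact c.trans (by omega), trivial⟩
      omega⟩
  have sp := Nat.find_spec ex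
  have o1 := cell_flip1 _ ▸ sp _ le_rfl 1
  have o2 := cell_flip2 _ ▸ sp _ le_rfl 2
  have o3 := cell_flip3 _ ▸ sp _ le_rfl 3
  refine ⟨_, out ?_ o1 o3, sp⟩
  obtain ⟨k, hk⟩ : ∃ k, cell (X ω s (Nat.find ex)) k ∈ Lam R := by
    cases e : Nat.find ex with
    | zero => exact ⟨0, hs⟩
    | succ T =>
      by_contra n
      refine Nat.find_min ex (m := T) (by omega) fun t ht k hk => ?_
      rcases ht.eq_or_lt with rfl | ht
      · obtain ⟨k', e'⟩ := c_turn ω (h58.flip (X ω s T)) k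
        exact n ⟨k', by rw [X_succ, nxt, e']; exact hk⟩
      · exact sp t (by omega) k hk
  fin_cases k
  exacts [hk, absurd hk o1, absurd hk o2, absurd hk o3]

theorem zon {R : ℤ} {v : Cl} (ρ : P4) (h : v ∈ Lam (R + 1)) (h1 : R - 11 ≤ be (ρ 0) (ρ 3) v)
    (h2 : R - 11 ≤ be (ρ 1) (ρ 2) v) : v ∈ Zon R := by
  refine mem_zon.2 ⟨ρ, v - R • (w (ρ 0) + w (ρ 1)), box fun i j => ?_, by simp⟩
  obtain ⟨α, rfl⟩ := ρ.surjective i
  obtain ⟨β, rfl⟩ := ρ.surjective j
  have a1 := h (ρ 0) (ρ 2)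
  have a2 := h (ρ 0) (ρ 3)
  have a3 := h (ρ 1) (ρ 2)
  have a4 := h (ρ 1) (ρ 3)
  simp only [be_sub, be_smul, be_add, be_w, EmbeddingLike.apply_eq_iff_eq]
  unfold be at *
  fin_cases α <;> fin_cases β <;> simp <;> omega

theorem zon_cell {R : ℤ} {z : St} (h : z.1 ∈ Lam R) (c : Cor R z) (k : Fin 4) :
    cell z k ∈ Zon R := by
  obtain ⟨ρ, c1, c2⟩ := c
  have a : ∀ i j, be i j (cell z k) ≤ be i j z.1 + 1 ∧ be i j z.1 ≤ be i j (cell z k) + 1 :=
    fun i j => by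
      have a := L_cell i j z k
      have c := L_cell i j z 0
      rw [cell_0] at c
      omega
  have a1 := (a (ρ 0) (ρ 3)).2
  have a2 := (a (ρ 1) (ρ 2)).2
  refine zon ρ (fun i j => ?_) (by omega) (by omega)
  have a3 := (a i j).1
  have a4 := h i j
  omega

theorem far {R : ℤ} {v : Cl} (h : v ∈ Zon R) : ∃ i j, R - 60 ≤ be i j v := by
  obtain ⟨ρ, d, h2, rfl⟩ := mem_zon.1 h
  have h3 : ∀ i, -30 ≤ b i d ∧ b i d ≤ 30 := fun i => by
    unfold b
    split_ifs
    · exact ⟨h2.1 _, h2.2 _⟩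
    · omega
  refine ⟨ρ 0, ρ 3, ?_⟩
  have a := h3 (ρ 0)
  have c := h3 (ρ 3)
  simp only [be_smul, be_add, be_w, EmbeddingLike.apply_eq_iff_eq]
  unfold be
  simp
  omega

end ExiL

open ExiL in
theorem exi : Exi := by
  refine ⟨fun R ω s h hs => ?_, fun R ω z o t h c => ?_, card_zon, fun F => ?_, fin⟩
  · obtain ⟨T, o, sp⟩ := exit R ω s h hs
    refine ⟨T, o, fun ω' e => ⟨fun k hk => e _ ?_, fun u => ?_⟩⟩
    · have := sp T le_rfl k
      fin_cases k
      · exact absurd rfl hk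
      all_goals simpa using this
    · induction u with
      | zero => rfl
      | succ u ih =>
        rw [X_succ, X_succ, ih, X_add]
        exact nxt_congr fun k => e _ (sp _ (by omega) k)
  · exact t.1 ((h _ (zon_cell o.1 c 1)).trans (h _ (zon_cell o.1 c 2)).symm)
  · obtain ⟨M, hM⟩ := ((F.finite_toSet.prod (Set.finite_univ (α := Fin 4 × Fin 4))).image
      fun x => be x.2.1 x.2.2 x.1).bddAbove
    have a : ∀ v ∈ F, ∀ i j, be i j v ≤ M := fun v hv i j => hM ⟨(v, i, j), ⟨hv, trivial⟩, rfl⟩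
    refine ⟨M + 61, fun R hR => ⟨fun v hv i j => (a v hv i j).trans (by omega), fun v hv n => ?_⟩⟩
    obtain ⟨i, j, c⟩ := far hv
    have := a v n i j
    omega

end Pool.Agent.MP_5f6c2d_pr.I29
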