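import Pool.Agent.MP_5f6c2d_pr.I29.Spec

/- The joining gadget. -/

set_option autoImplicit false

namespace Pool.Agent.MP_5f6c2d_pr.I29

open h58

namespace GadL

abbrev Lb := List (Cl × Fin 3)

/- The path from `s` turns as the list says and ends in `e`. -/
def chk (l : Lb) (e : St) : List (Fin 4) → St → Bool
  | [], s => decide (s = e)
  | j :: js, s => decide (j ≠ 0 ∧ ∃ p ∈ l, p.1 = cell (h58.flip s) 0 ∧
      ∃ q ∈ l, q.1 = cell (h58.flip s) j ∧ p.2 = q.2) && chk l e js (rot^[j.val] (h58.flip s))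

theorem chk_snd {l : Lb} {e : St} {ω : Om} {c : Fin 3 → Fin 3} (h : ∀ p ∈ l, ω p.1 = c p.2)
    (js : List (Fin 4)) (s : St) (ht : tri ω s) (k : chk l e js s = true) : ∃ n, X ω s n = e := by
  induction js generalizing s with
  | nil => exact ⟨0, of_decide_eq_true k⟩
  | cons j js ih =>
    rw [chk, Bool.and_eq_true, decide_eq_true_eq] at k
    obtain ⟨⟨j0, p, p1, p2, q, q1, q2, pq⟩, k⟩ := k
    have e1 : ω (cell (h58.flip s) j) = ω (cell (h58.flip s) 0) := by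
      rw [← p2, ← q2, h p p1, h q q1, pq]
    have t := (tri_flip ω s).2 ht
    have e2 : nxt ω s = rot^[j.val] (h58.flip s) := by
      fin_cases j
      exacts [absurd rfl j0, turn_eq1 t e1, turn_eq2 t e1, turn_eq3 t e1]
    rw [← e2] at k
    obtain ⟨n, hn⟩ := ih _ (tri_nxt ht) k
    exact ⟨1 + n, by rw [← X_add]; exact hn⟩

def T1 : St := (![-1, 0, 1], 1)
def T2 : St := (![-1, 0, -1], 1)

def l0 (x y z : Fin 3) : Lb :=
  [(cell T1 1, 0), (cell T1 2, 1), (cell T1 3, 2), (cell T2 1, x), (cell T2 2, y), (cell T2 3, z)]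

def Ok (x y z : Fin 3) (l : Lb) (js : List (Fin 4)) : Prop :=
  (∀ p ∈ l, l.find? (fun q => decide (q.1 = p.1)) = some p ∧ 1 ≤ be 0 3 p.1 ∧
    ∀ i j, be i j p.1 ≤ 2) ∧ (∀ p ∈ l0 x y z, ¬ 1 ≤ be 0 3 p.1) ∧
    chk (l0 x y z ++ l) (h58.flip T2) js T1 = true

instance (x y z : Fin 3) (l : Lb) (js : List (Fin 4)) : Decidable (Ok x y z l js) := by
  unfold Ok; infer_instance

def Res (ω : Om) : Prop := ∃ ω' : Om,
  (∀ v, ω' v ≠ ω v → 1 ≤ be 0 3 v ∧ ∀ i j, be i j v ≤ 2) ∧ ∃ n, X ω' T1 n = h58.flip T2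

theorem key {x y z : Fin 3} {l : Lb} {js : List (Fin 4)} (ok : Ok x y z l js) {ω : Om}
    (ht : tri ω T1) (c : Fin 3 → Fin 3) (h : ∀ p ∈ l0 x y z, ω p.1 = c p.2) : Res ω := by
  obtain ⟨o1, o2, o3⟩ := ok
  let ω' : Om := fun v => ((l.find? fun q => decide (q.1 = v)).map fun q => c q.2).getD (ω v)
  have a : ∀ v, ω' v ≠ ω v → 1 ≤ be 0 3 v ∧ ∀ i j, be i j v ≤ 2 := by
    intro v hv
    cases e : l.find? fun q => decide (q.1 = v) with
    | none => exact absurd (by simp only [ω', e]; rfl) hv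
    | some p =>
      have e1 : p.1 = v := by simpa using List.find?_some e
      exact e1 ▸ (o1 p (List.mem_of_find?_eq_some e)).2
  have b : ∀ p ∈ l0 x y z, ω' p.1 = ω p.1 := fun p hp => by
    by_contra n
    exact o2 p hp (a _ n).1
  refine ⟨ω', a, chk_snd (c := c) (fun p hp => ?_) js T1 ((tri_congr fun k hk => ?_).2 ht) o3⟩
  · rcases List.mem_append.1 hp with q | q
    · rw [b p q, h p q]
    · simp only [ω', (o1 p q).1]
      rfl
  · fin_cases k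
    exacts [absurd rfl hk, b (cell T1 1, 0) (by simp [l0]), b (cell T1 2, 1) (by simp [l0]),
      b (cell T1 3, 2) (by simp [l0])]

theorem ok1 : Ok 0 2 1 [(![1, 1, 2], 0), (![1, 2, 2], 2), (![1, 1, 1], 0), (![1, 2, 1], 2),
    (![1, 1, 0], 0), (![1, 2, 0], 2)] [1, 2, 1, 1, 1, 1, 1, 3, 3] := by decide +kernel

theorem ok2 : Ok 2 1 0 [(![1, 1, 2], 0), (![1, 2, 2], 2), (![1, 1, 1], 0), (![1, 2, 1], 1),
    (![2, 2, 2], 2), (![2, 2, 1], 2), (![1, 1, 0], 2), (![1, 2, 0], 1)]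
    [1, 2, 1, 2, 3, 1, 3, 2, 1, 3, 3] := by decide +kernel

theorem ok3 : Ok 1 0 2 [(![1, 1, 2], 0), (![1, 2, 2], 2), (![1, 1, 1], 1), (![2, 2, 2], 0),
    (![1, 2, 1], 2), (![2, 2, 1], 0), (![1, 1, 0], 1), (![1, 2, 0], 0)]
    [1, 2, 3, 2, 1, 1, 1, 2, 3, 3, 3] := by decide +kernel

theorem col : ∀ a b c d e f : Fin 3, a ≠ b → a ≠ c → b ≠ c → d ≠ e → d ≠ f → e ≠ f →
    ¬ (b = a + 1 ↔ e = d + 1) →
    (d = a ∧ e = c ∧ f = b) ∨ (d = c ∧ e = b ∧ f = a) ∨ (d = b ∧ e = a ∧ f = c) := by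
  have : ∀ a b c d e f : Fin 3, [a, b, c].Nodup → [d, e, f].Nodup → ¬ (b = a + 1 ↔ e = d + 1) →
      (d, e, f) ∈ [(a, c, b), (c, b, a), (b, a, c)] := by decide +kernel
  intro a b c d e f h1 h2 h3 h4 h5 h6 h
  simpa using this a b c d e f (by simp [*]) (by simp [*]) h

theorem can {ω : Om} (h1 : tri ω T1) (h2 : tri ω T2)
    (h : ¬ (ω (cell T1 2) = ω (cell T1 1) + 1 ↔ ω (cell T2 2) = ω (cell T2 1) + 1)) : Res ω := by
  rcases col _ _ _ _ _ _ h1.1 h1.2.1 h1.2.2 h2.1 h2.2.1 h2.2.2 h with e | e | e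
  · exact key ok1 h1 ![ω (cell T1 1), ω (cell T1 2), ω (cell T1 3)] (by simpa [l0] using e)
  · exact key ok2 h1 ![ω (cell T1 1), ω (cell T1 2), ω (cell T1 3)] (by simpa [l0] using e)
  · exact key ok3 h1 ![ω (cell T1 1), ω (cell T1 2), ω (cell T1 3)] (by simpa [l0] using e)

def ph (ρ : P4) (g v : Cl) : Cl := g + v 0 • w (ρ 0) + v 1 • w (ρ 1) + v 2 • w (ρ 2)

theorem be_ph (ρ : P4) (g v : Cl) (i j : Fin 4) :
    be (ρ i) (ρ j) (ph ρ g v) = be (ρ i) (ρ j) g + be i j v := by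
  simp only [ph, be_add, be_smul, be_w, EmbeddingLike.apply_eq_iff_eq]
  generalize be (ρ i) (ρ j) g = t
  fin_cases i <;> fin_cases j <;> simp [be, b] <;> ring

def sy (ρ : P4) (g : Cl) : Sym where
  φ := ph ρ g
  σ := ρ
  inj u v e := be_ext fun i j => by
    have a := be_ph ρ g u i j
    rw [e, be_ph] at a
    omega
  hw v k := be_ext fun i j => by
    obtain ⟨i, rfl⟩ := ρ.surjective i
    obtain ⟨j, rfl⟩ := ρ.surjective j
    simp only [be_ph, be_add, be_w, EmbeddingLike.apply_eq_iff_eq, add_assoc]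
  hb i j v v' := by rw [be_ph, be_ph]; ring

theorem L_sy (ρ : P4) (g : Cl) (s : St) (i j : Fin 4) :
    L (ρ i) (ρ j) ((sy ρ g).act s) = be (ρ i) (ρ j) g + L i j s := by
  simp only [L, Sym.act, sy, be_ph, Equiv.Perm.mul_apply, mul_inv_rev, pinv]
  ring

theorem L_can : L 0 3 T1 = -1 ∧ L 0 3 T2 = -1 ∧ L 1 2 T1 = -1 ∧ L 1 2 T2 = 1 ∧
    ∀ i j, L i j T1 ≤ 1 ∧ L i j T2 ≤ 1 := by decide +kernel

end GadL

open GadL in
theorem gad : Gad := by
  intro ρ g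
  obtain ⟨a1, a2, a3, a4, a5⟩ := L_can
  refine ⟨(sy ρ g).act T1, (sy ρ g).act T2, mul_one ρ, mul_one ρ, by rw [L_sy, a1]; rfl,
    by rw [L_sy, a2]; rfl, by rw [L_sy, a3]; rfl, by rw [L_sy, a4], fun i j => ?_,
    fun ω h1 h2 h => ?_⟩
  · obtain ⟨i, rfl⟩ := ρ.surjective i
    obtain ⟨j, rfl⟩ := ρ.surjective j
    have := a5 i j
    rw [L_sy, L_sy]
    omega
  · rw [Sym.tri_act] at h1 h2
    have e : ((sy ρ g).act T2).2 = ((sy ρ g).act T1).2 := rfl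
    simp only [chi, e, Sym.cell_act] at h
    obtain ⟨ω', b1, n, b2⟩ := can h1 h2 (by tauto)
    have f : ∀ v, Function.extend (sy ρ g).φ ω' ω ((sy ρ g).φ v) = ω' v :=
      (sy ρ g).inj.extend_apply _ _
    refine ⟨Function.extend (sy ρ g).φ ω' ω, fun u hu => ?_, n, ?_⟩
    · obtain ⟨v, rfl⟩ : ∃ v, (sy ρ g).φ v = u := by
        by_contra c
        exact hu (Function.extend_apply' _ _ _ c)
      rw [f] at hu
      obtain ⟨c1, c2⟩ := b1 v hu
      refine ⟨by have := be_ph ρ g v 0 3; simp only [sy]; omega, fun i j => ?_⟩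
      obtain ⟨i, rfl⟩ := ρ.surjective i
      obtain ⟨j, rfl⟩ := ρ.surjective j
      have := be_ph ρ g v i j
      have := c2 i j
      simp only [sy]
      omega
    · rw [Sym.X_act, Sym.flip_act, funext f, b2]

end Pool.Agent.MP_5f6c2d_pr.I29
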