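import Pool.Agent.MP_5f6c2d_pr.I29.Spec

/- Minimal galleries. -/

set_option autoImplicit false
open scoped Classical

namespace Pool.Agent.MP_5f6c2d_pr.I29

open h58

theorem perm_mono : ∀ τ : P4, (∀ α β : Fin 4, τ⁻¹ β < τ⁻¹ α ↔ β < α) → τ = 1 := by
  decide +kernel

theorem L_ext {s s' : St} (h : ∀ i j, L i j s = L i j s') (e : s.2 0 = s'.2 0) : s = s' := by
  have h0 : ∀ j, be (s.2 0) j s.1 = be (s.2 0) j s'.1 := fun j => by
    have := h (s.2 0) j
    unfold L at this
    rw [pinv, if_neg (by simp), e, pinv, if_neg (by simp), ← e] at this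
    omega
  have h1 : s.1 = s'.1 := be_ext fun i j => by
    have a := h0 i; have c := h0 j
    unfold be at *; omega
  refine Prod.ext h1 ?_
  have := perm_mono (s.2⁻¹ * s'.2) fun α β => by
    have := h (s.2 α) (s.2 β)
    simp only [L, h1, pinv, mul_inv_rev, inv_inv, Equiv.Perm.mul_apply] at this ⊢
    split_ifs at this with a c c <;> omega
  rw [← mul_one s.2, ← this]; group

theorem L_le {f s : St} (h0 : L (f.2 0) (f.2 3) s ≤ L (f.2 0) (f.2 3) f)
    (h1 : L (f.2 1) (f.2 0) s ≤ L (f.2 1) (f.2 0) f) (h2 : L (f.2 2) (f.2 1) s ≤ L (f.2 2) (f.2 1) f)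
    (h3 : L (f.2 3) (f.2 2) s ≤ L (f.2 3) (f.2 2) f) (i j : Fin 4) : L i j s = L i j f := by
  have key : ∀ α β, L (f.2 α) (f.2 β) s ≤ L (f.2 α) (f.2 β) f := by
    have t1 := (L_tri (f.2 2) (f.2 1) (f.2 0) s).2
    have t2 := (L_tri (f.2 3) (f.2 2) (f.2 1) s).2
    have t3 := (L_tri (f.2 0) (f.2 3) (f.2 2) s).2
    have t4 := (L_tri (f.2 1) (f.2 0) (f.2 3) s).2
    have t5 := (L_tri (f.2 3) (f.2 1) (f.2 0) s).2
    have t6 := (L_tri (f.2 0) (f.2 2) (f.2 1) s).2
    have t7 := (L_tri (f.2 1) (f.2 3) (f.2 2) s).2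
    have t8 := (L_tri (f.2 2) (f.2 0) (f.2 3) s).2
    intro α β
    have e : ∀ α β : Fin 4, L (f.2 α) (f.2 β) f =
        b (f.2 α) f.1 - b (f.2 β) f.1 - if β < α then 1 else 0 := fun α β => by
      simp only [L, be, pinv]
    rw [e] at h0 h1 h2 h3 ⊢
    fin_cases α <;> fin_cases β <;> simp [L_self] at h0 h1 h2 h3 ⊢ <;> omega
  obtain ⟨α, rfl⟩ := f.2.surjective i
  obtain ⟨β, rfl⟩ := f.2.surjective j
  by_cases n : α = β
  · rw [n, L_self, L_self]
  · have a := key α β
    have c := key β α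
    rw [L_anti (p_ne f n), L_anti (p_ne f n) f] at c
    omega

theorem cell_mem {f s : St} (k : Fin 4) : cell f k ∈ Hull f s := fun i j => by
  have := (L_cell i j f k).2
  have := le_max_left (L i j f) (L i j s)
  omega

theorem cell0_ne (f : St) {k : Fin 4} (hk : k ≠ 0) : cell f k ≠ cell f 0 := fun e => by
  have := L_wall f k hk
  rw [e, L_own, cell_0] at this
  omega

/- The three ways out of an alcove. -/
def Way (f r : St) (j : Fin 4) : Prop := j ≠ 0 ∧ cell r 0 = cell f j ∧ (∀ i i', L i i' r = L i i' f) ∧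
  (∀ k, cell f k = cell r 0 ∨ ∃ k', k' ≠ 0 ∧ cell f k = cell r k') ∧
  (∀ ω, tri ω f → ω (cell f j) = ω (cell f 0) → turn ω f = r)

theorem way1 (f : St) : Way f (rot f) 1 := by
  refine ⟨by decide, rfl, fun _ _ => L_rot _ _ _, fun k => ?_, fun ω => turn_eq1⟩
  fin_cases k
  exacts [Or.inr ⟨3, by decide, by simp⟩, Or.inl rfl, Or.inr ⟨1, by decide, by simp⟩,
    Or.inr ⟨2, by decide, by simp⟩]

theorem way2 (f : St) : Way f (rot (rot f)) 2 := by
  refine ⟨by decide, by simp, fun _ _ => by simp only [L_rot], fun k => ?_, fun ω => turn_eq2⟩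
  fin_cases k
  exacts [Or.inr ⟨2, by decide, by simp⟩, Or.inr ⟨3, by decide, by simp⟩, Or.inl (by simp),
    Or.inr ⟨1, by decide, by simp⟩]

theorem way3 (f : St) : Way f (rot (rot (rot f))) 3 := by
  refine ⟨by decide, by simp, fun _ _ => by simp only [L_rot], fun k => ?_, fun ω => turn_eq3⟩
  fin_cases k
  exacts [Or.inr ⟨1, by decide, by simp⟩, Or.inr ⟨2, by decide, by simp⟩,
    Or.inr ⟨3, by decide, by simp⟩, Or.inl (by simp)]

noncomputable def dis (s s' : St) : ℕ := ∑ x : Fin 4 × Fin 4, (L x.1 x.2 s' - L x.1 x.2 s).toNat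

theorem gal : Gal := by
  intro ω s s'
  induction hN : dis (h58.flip s) s' using Nat.strong_induction_on generalizing ω s with
  | _ N ih =>
  intro ht c1 c2 c3
  set f := h58.flip s with hf
  have tf : tri ω f := (tri_flip _ _).2 ht
  have cf : ∀ k : Fin 4, k ≠ 0 → cell s k = cell f k := fun k hk => by
    fin_cases k
    · exact absurd rfl hk
    all_goals simp [hf]
  -- one step along a way
  have one : ∀ r j, Way f r j → ∀ ω' ω'' : Om, (∀ k : Fin 4, k ≠ 0 → ω' (cell f k) = ω (cell f k)) →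
      ω' (cell f 0) = ω (cell f j) → (∀ v ∈ Hull f s', ω'' v = ω' v) → nxt ω'' s = r := by
    intro r j hw ω' ω'' a c d
    refine hw.2.2.2.2 ω'' ((tri_congr fun k hk => ?_).2 tf) ?_
    · rw [d _ (cell_mem k), a k hk]
    · rw [d _ (cell_mem j), d _ (cell_mem 0), c, a j hw.1]
  have upd : ∀ (j k : Fin 4), k ≠ 0 →
      Function.update ω (cell f 0) (ω (cell f j)) (cell f k) = ω (cell f k) :=
    fun j k hk => Function.update_of_ne (cell0_ne f hk) _ _
  have off : ∀ v, v ∉ Hull f s' → v ≠ cell f 0 := fun v hv e => hv (by rw [e]; exact cell_mem 0)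
  have go : ∀ r j, Way f r j → L (r.2 0) (r.2 3) r + 1 ≤ L (r.2 0) (r.2 3) s' →
      ∃ ω' : Om, (∀ v, v ∉ Hull f s' → ω' v = ω v) ∧
      (∀ k : Fin 4, k ≠ 0 → ω' (cell s k) = ω (cell s k)) ∧
      ∃ t, ∀ ω'' : Om, (∀ v ∈ Hull f s', ω'' v = ω' v) → X ω'' s t = s' := by
    intro r j hw sep
    have n03 := p_ne r (show (0 : Fin 4) ≠ 3 by decide)
    have lf : ∀ i i', L i i' (h58.flip r) ≤ L i i' f ∨
        (L i i' (h58.flip r) = L i i' f + 1 ∧ L i i' f + 1 ≤ L i i' s') := fun i i' => by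
      rw [L_flip, ← hw.2.2.1]
      split_ifs with a c
      · omega
      · right; rw [a.1, a.2]; omega
      · omega
      · omega
    have sub : Hull (h58.flip r) s' ⊆ Hull f s' := fun v hv i i' => by
      have := hv i i'
      have := lf i i'
      omega
    set ω₁ := Function.update ω (cell f 0) (ω (cell f j)) with h₁
    have t₁ : tri ω₁ f := (tri_congr fun k hk => upd j k hk).2 tf
    have tr' : turn ω₁ f = r := hw.2.2.2.2 ω₁ t₁ (by rw [h₁, upd j j hw.1, Function.update_self])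
    have lt : dis (h58.flip r) s' < N := by
      rw [← hN]
      refine Finset.sum_lt_sum (fun x _ => ?_) ⟨(r.2 0, r.2 3), Finset.mem_univ _, ?_⟩
      · rw [L_flip, ← hw.2.2.1]
        split_ifs with a c c
        · omega
        · omega
        · rw [c.1, c.2, L_anti n03, L_anti n03]; omega
        · omega
      · simp only [L_flip_own, ← hw.2.2.1]; omega
    obtain ⟨ω', a1, a2, t, a3⟩ := ih _ lt ω₁ r rfl (tr' ▸ tri_turn t₁) sep
      (by have := lf (s'.2 0) (s'.2 3); omega) (fun e => by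
        have e0 : s'.2 0 = r.2 3 := by rw [e, flip_0]
        have e3 : s'.2 3 = r.2 0 := by rw [e, flip_3]
        rw [e0, e3, L_anti n03, L_anti n03, ← hw.2.2.1] at c2
        omega)
    have out : cell r 0 ∉ Hull (h58.flip r) s' := fun hv => by
      have := hv (r.2 3) (r.2 0)
      rw [L_anti n03, L_anti n03, L_flip_own, be_anti, cell_0, ← L_own] at this
      omega
    have all : ∀ k, ω' (cell f k) = ω₁ (cell f k) := fun k => by
      rcases hw.2.2.2.1 k with e | ⟨k', hk, e⟩ <;> rw [e]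
      exacts [a1 _ out, a2 k' hk]
    refine ⟨ω', fun v hv => ?_, fun k hk => by rw [cf k hk, all, h₁, upd j k hk], 1 + t,
      fun ω'' d => ?_⟩
    · rw [a1 v fun h => hv (sub h), h₁, Function.update_of_ne (off v hv)]
    · rw [← X_add, X_succ, X_zero, one r j hw ω' ω'' (fun k hk => by rw [all, h₁, upd j k hk])
        (by rw [all, h₁, Function.update_self]) d]
      exact a3 ω'' fun v hv => d v (sub hv)
  have fin : ∀ j, Way f s' j → ∃ ω' : Om, (∀ v, v ∉ Hull f s' → ω' v = ω v) ∧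
      (∀ k : Fin 4, k ≠ 0 → ω' (cell s k) = ω (cell s k)) ∧
      ∃ t, ∀ ω'' : Om, (∀ v ∈ Hull f s', ω'' v = ω' v) → X ω'' s t = s' := fun j hw =>
    ⟨Function.update ω (cell f 0) (ω (cell f j)),
      fun v hv => Function.update_of_ne (off v hv) _ _,
      fun k hk => by rw [cf k hk, upd j k hk], 1, fun ω'' d => by
        rw [X_succ, X_zero]
        exact one _ j hw _ ω'' (upd j) (Function.update_self ..) d⟩
  by_cases s1 : L (f.2 1) (f.2 0) f + 1 ≤ L (f.2 1) (f.2 0) s'
  · exact go _ _ (way1 f) (by simpa only [rot_0, rot_3, L_rot] using s1)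
  by_cases s2 : L (f.2 2) (f.2 1) f + 1 ≤ L (f.2 2) (f.2 1) s'
  · exact go _ _ (way2 f) (by simpa only [rot_0, rot_1, rot_2, rot_3, L_rot] using s2)
  by_cases s3 : L (f.2 3) (f.2 2) f + 1 ≤ L (f.2 3) (f.2 2) s'
  · exact go _ _ (way3 f) (by simpa only [rot_0, rot_1, rot_2, rot_3, L_rot] using s3)
  have n03 := p_ne s (show (0 : Fin 4) ≠ 3 by decide)
  have eq := L_le (f := f) (s := s')
    (by rw [hf, flip_0, flip_3, L_anti n03, L_anti n03, L_flip_own]; omega)
    (by omega) (by omega) (by omega)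
  obtain ⟨α, hα⟩ := f.2.surjective (s'.2 0)
  fin_cases α
  · exact absurd (L_ext eq hα.symm) c3
  · exact fin 1 (L_ext (s := s') (s' := rot f) (fun i j => by rw [eq, L_rot]) (by simpa using hα.symm) ▸ way1 f)
  · exact fin 2 (L_ext (s := s') (s' := rot (rot f)) (fun i j => by simp only [eq, L_rot])
      (by simpa using hα.symm) ▸ way2 f)
  · exact fin 3 (L_ext (s := s') (s' := rot (rot (rot f))) (fun i j => by simp only [eq, L_rot])
      (by simpa using hα.symm) ▸ way3 f)

end Pool.Agent.MP_5f6c2d_pr.I29
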