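import Pool.Agent.MP_5f6c2d_pr.I29.Spec

/- Finite energy, approximation by local events, mixing. -/

set_option autoImplicit false
open MeasureTheory

namespace Pool.Agent.MP_5f6c2d_pr.I29

open scoped Classical ENNReal
open h58

theorem fen : Fen := by
  intro ν _ q hq F η
  have e : {ω : Om | ∀ v ∈ F, ω v = η v} = Set.pi F fun v => {η v} := by
    ext ω
    simp
  have m : MeasurableSet {ω : Om | ∀ v ∈ F, ω v = η v} :=
    e ▸ MeasurableSet.pi F.countable_toSet fun _ _ => measurableSet_singleton _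
  have h : q ^ F.card ≤ mu ν {ω | ∀ v ∈ F, ω v = η v} := by
    rw [e, mu, Measure.infinitePi_pi _ fun _ _ => measurableSet_singleton _, ← Finset.prod_const]
    exact Finset.prod_le_prod' fun _ _ => hq _
  refine ⟨h, fun S hS => (mul_le_mul_left h _).trans ?_⟩
  rw [← indep ν (R := F) (E' := {ω | md F η ω ∈ S}) m (meas_md F η hS)
    (fun ω ω' a b v hv => (a v hv).symm.trans (b v hv)) fun ω ω' a b => ?_]
  · refine measure_mono fun ω a => ?_
    have : md F η ω = ω := funext fun v => by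
      unfold md
      split_ifs with hv
      exacts [(a.1 v hv).symm, rfl]
    exact this ▸ a.2
  · have : md F η ω = md F η ω' := funext fun v => by
      unfold md
      split_ifs with hv
      exacts [rfl, a v hv]
    exact show md F η ω' ∈ S from this ▸ b

theorem app : App := by
  intro ν _ E hE ε hε
  obtain ⟨B, hB, hlt⟩ := exists_measure_symmDiff_lt_of_generateFrom_isSetRing
    (μ := mu ν) (isSetRing_measurableCylinders (α := fun _ : Cl => Fin 3))
    ⟨{Set.univ}, Set.countable_singleton _, fun s hs => by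
      rw [Set.mem_singleton_iff.1 hs]
      exact univ_mem_measurableCylinders _, by simp⟩
    generateFrom_measurableCylinders.symm hE (pos_iff_ne_zero.2 hε)
  obtain ⟨F, S, hS, rfl⟩ := (mem_measurableCylinders B).1 hB
  refine ⟨F, _, hS.cylinder, fun ω ω' h hm => ?_, le_trans (measure_mono fun ω h => ?_) hlt.le⟩
  · rw [mem_cylinder] at hm ⊢
    rwa [show F.restrict ω' = F.restrict ω from funext fun v => (h v v.2).symm]
  · rw [Set.mem_symmDiff]
    have : ¬(ω ∈ E ↔ ω ∈ cylinder F S) := h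
    tauto

namespace MixL

theorem le_add {μ : Measure Om} {S T D : Set Om} {ε : ℝ≥0∞} (h : μ D ≤ ε)
    (k : ∀ ω ∈ S, ω ∉ D → ω ∈ T) : μ S ≤ μ T + ε :=
  (measure_mono fun ω a => (em (ω ∈ D)).symm.imp_left (k ω a)).trans
    ((measure_union_le T D).trans (add_le_add_right h _))

theorem small {a : ℝ≥0∞} (h : a ≠ 0) : ∃ ε : ℝ≥0∞, ε ≠ 0 ∧ ε + ε + (ε + ε) < a := by
  obtain ⟨r, r0, r1⟩ := exists_between (pos_iff_ne_zero.2 h)
  refine ⟨r / 2 / 2, by simp [r0.ne'], ?_⟩
  rwa [ENNReal.add_halves, ENNReal.add_halves]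

theorem core (ν : Measure (Fin 3)) [IsProbabilityMeasure ν] {E : Set Om} (hE : MeasurableSet E)
    {ε : ℝ≥0∞} (hε : ε ≠ 0) : ∃ F : Finset Cl, ∀ Z : Set Om, MeasurableSet Z →
      Det (F : Set Cl)ᶜ Z → mu ν E * mu ν Z ≤ mu ν (E ∩ Z) + (ε + ε) := by
  obtain ⟨F, B, mB, dB, h⟩ := app ν E hE ε hε
  refine ⟨F, fun Z mZ dZ => ?_⟩
  have a : mu ν E ≤ mu ν B + ε := le_add h fun ω a b => (not_not.1 b).1 a
  have b : mu ν (B ∩ Z) ≤ mu ν (E ∩ Z) + ε := le_add h fun ω a b => ⟨(not_not.1 b).2 a.1, a.2⟩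
  refine (mul_le_mul_left a _).trans ?_
  rw [add_mul, ← indep ν mB mZ dB dZ, ← add_assoc]
  exact add_le_add b (mul_le_of_le_one_right' prob_le_one)

end MixL

theorem mixing : Mix := by
  intro ν _ E hE h0
  refine ⟨fun c hc => ?_, fun E' hE' h1 => ?_⟩
  · obtain ⟨ε, e0, e1⟩ := MixL.small (mul_ne_zero h0 hc)
    obtain ⟨F, hF⟩ := MixL.core ν hE e0
    refine ⟨F, fun Z mZ dZ k z => e1.not_ge ?_⟩
    have := hF Z mZ dZ
    rw [z, zero_add] at this
    exact ((mul_le_mul_right k _).trans this).trans le_add_self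
  · obtain ⟨ε, e0, e1⟩ := MixL.small (mul_ne_zero h0 h1)
    obtain ⟨F, hF⟩ := MixL.core ν hE e0
    obtain ⟨F', B, mB, dB, h⟩ := app ν E' hE' ε e0
    obtain ⟨v, hv⟩ := Infinite.exists_notMem_finset ((F ×ˢ F').image fun x => x.1 - x.2)
    have ms : Measurable fun (ω : Om) u => ω ((tr v).φ u) := by fun_prop
    refine ⟨v, fun z => e1.not_ge ?_⟩
    have a := hF {ω | (fun u => ω ((tr v).φ u)) ∈ B} (ms mB) fun ω ω' a b =>
      dB _ _ (fun u hu => a _ fun k => hv (Finset.mem_image.2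
        ⟨(_, u), Finset.mem_product.2 ⟨k, hu⟩, add_sub_cancel_left u v⟩)) b
    have b := mu_pre ν (tr v).inj (E := fun ω => ω ∈ B) mB
    have c := mu_pre ν (tr v).inj (E := fun ω => ¬(ω ∈ E' ↔ ω ∈ B))
      (measurableSet_setOfPred.2 (hE'.mem.iff mB.mem).not)
    have d : mu ν (E ∩ {ω | (fun u => ω ((tr v).φ u)) ∈ B}) ≤
        mu ν (E ∩ {ω | (fun u => ω ((tr v).φ u)) ∈ E'}) + ε :=
      MixL.le_add (c.trans_le h) fun ω a b => ⟨a.1, (not_not.1 b).2 a.2⟩
    have f : mu ν E' ≤ mu ν B + ε := MixL.le_add h fun ω a b => (not_not.1 b).1 a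
    rw [z, zero_add] at d
    rw [b] at a
    refine (mul_le_mul_right f _).trans ?_
    rw [mul_add, add_comm, add_assoc ε]
    exact add_le_add (mul_le_of_le_one_left' prob_le_one) (a.trans (add_le_add_left d _))

end Pool.Agent.MP_5f6c2d_pr.I29
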