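import Mathlib
import Pool.Agent.MP_5f6c2d_pr.Model
import Pool.Agent.MP_5f6c2d_pr.h58.Meas

/- Indistinguishability of infinite tricolor paths: definitions, chirality, prisms, and the
statements of the parts of the proof. -/

set_option autoImplicit false
open MeasureTheory

namespace Pool.Agent.MP_5f6c2d_pr.I29

theorem col3 : ∀ x y z x' y' z' : Fin 3, x ≠ y → x ≠ z → y ≠ z → x' ≠ y' → x' ≠ z' → y' ≠ z' →
    (y = x + 1 ↔ y' = x' + 1) → (x = x' ∨ y = y' ∨ z = z') → x = x' ∧ y = y' ∧ z = z' := by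
  intro x y z x' y' z'
  simp only [ne_eq, Fin.ext_iff, Fin.val_add, Fin.val_one]
  omega

open scoped Classical ENNReal
open h58

/- Chirality of a directed tricolor edge. -/
def chi (ω : Om) (s : St) : Prop :=
  (Equiv.Perm.sign s.2 = 1 ↔ ω (cell s 2) = ω (cell s 1) + 1)

theorem sign_ne (π τ : P4) (h : Equiv.Perm.sign τ = -1) :
    Equiv.Perm.sign (π * τ) = 1 ↔ ¬ Equiv.Perm.sign π = 1 := by
  rw [map_mul, h]
  rcases Int.units_eq_one_or (Equiv.Perm.sign π) with e | e <;> rw [e] <;> decide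

theorem sign_flip (s : St) : Equiv.Perm.sign (h58.flip s).2 = 1 ↔ ¬ Equiv.Perm.sign s.2 = 1 :=
  sign_ne _ _ (by decide)

theorem sign_rot (s : St) : Equiv.Perm.sign (rot s).2 = 1 ↔ ¬ Equiv.Perm.sign s.2 = 1 :=
  sign_ne _ _ (by decide)

theorem chi_flip (ω : Om) (s : St) : chi ω (h58.flip s) ↔ ¬ chi ω s := by
  simp only [chi, sign_flip, cell_flip1, cell_flip2]; tauto

theorem ori3 : ∀ x y z : Fin 3, x ≠ y → x ≠ z → y ≠ z →
    (z = y + 1 ↔ y = x + 1) ∧ (y = z + 1 ↔ ¬ y = x + 1) ∧ (x = z + 1 ↔ y = x + 1) := by decide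

theorem chi_turn {ω : Om} {s : St} (h : tri ω s) : chi ω (turn ω s) ↔ ¬ chi ω s := by
  obtain ⟨o1, o2, o3⟩ := ori3 _ _ _ h.1 h.2.1 h.2.2
  rcases turn_cases h with ⟨e, h'⟩ | ⟨e, h'⟩ | ⟨e, h'⟩ <;> rw [h'] <;>
    simp only [chi, sign_rot, cell_rot0, cell_rot1, cell_rot2, cell_rot3, ← e, o1, o2, o3] <;> tauto

theorem chi_nxt {ω : Om} {s : St} (h : tri ω s) : chi ω (nxt ω s) ↔ chi ω s := by
  unfold nxt; rw [chi_turn ((tri_flip _ _).2 h), chi_flip, not_not]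

theorem chi_X {ω : Om} {s : St} (h : tri ω s) (t : ℕ) : chi ω (X ω s t) ↔ chi ω s := by
  induction t with
  | zero => rfl
  | succ t ih => rw [X_succ, chi_nxt (tri_X h t), ih]

/- Same chirality, same direction and one equal colour force equal colours. -/
theorem chi_col {ω ω' : Om} {s s' : St} (h : tri ω s) (h' : tri ω' s') (e : s.2 = s'.2)
    (c : chi ω s ↔ chi ω' s') {k : Fin 4} (hk : k ≠ 0) (ek : ω (cell s k) = ω' (cell s' k)) :
    ∀ j : Fin 4, j ≠ 0 → ω (cell s j) = ω' (cell s' j) := by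
  have := col3 _ _ _ _ _ _ h.1 h.2.1 h.2.2 h'.1 h'.2.1 h'.2.2
    (by unfold chi at c; rw [e] at c; tauto)
    (by fin_cases k
        exacts [absurd rfl hk, Or.inl ek, Or.inr (Or.inl ek), Or.inr (Or.inr ek)])
  intro j hj
  fin_cases j
  exacts [absurd rfl hj, this.1, this.2.1, this.2.2]

theorem tri_congr {ω ω' : Om} {s s' : St}
    (h : ∀ k : Fin 4, k ≠ 0 → ω (cell s k) = ω' (cell s' k)) : tri ω s ↔ tri ω' s' := by
  simp only [tri, h 1 (by decide), h 2 (by decide), h 3 (by decide)]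

theorem chi_congr {ω ω' : Om} {s s' : St} (e : s.2 = s'.2)
    (h : ∀ k : Fin 4, k ≠ 0 → ω (cell s k) = ω' (cell s' k)) : chi ω s ↔ chi ω' s' := by
  simp only [chi, e, h 1 (by decide), h 2 (by decide)]

theorem be_ext {u v : Cl} (h : ∀ i j, be i j u = be i j v) : u = v := by
  have h0 := h 0 3; have h1 := h 1 3; have h2 := h 2 3
  simp [be, b] at h0 h1 h2
  ext i; fin_cases i
  exacts [h0, h1, h2]

theorem be_tri (i j k : Fin 4) (v : Cl) : be i j v + be j k v = be i k v := by unfold be; ring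
theorem be_anti (i j : Fin 4) (v : Cl) : be j i v = - be i j v := by unfold be; ring
theorem be_neg (i j : Fin 4) (v : Cl) : be i j (-v) = - be i j v := by
  have := be_smul i j (-1) v; simpa using this

theorem cell_ne (s : St) : cell s 1 ≠ cell s 2 ∧ cell s 1 ≠ cell s 3 ∧ cell s 2 ≠ cell s 3 := by
  refine ⟨fun e => ?_, fun e => ?_, fun e => ?_⟩
  · have := congrArg (be (s.2 1) (s.2 2)) e
    simp [cell_1, cell_2, be_add, be_w] at this
  · have := congrArg (be (s.2 1) (s.2 0)) e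
    simp [cell_1, cell_3', be_add, be_w] at this
  · have := congrArg (be (s.2 1) (s.2 2)) e
    simp [cell_2, cell_3', be_add, be_w] at this

theorem L_own (s : St) : L (s.2 0) (s.2 3) s = be (s.2 0) (s.2 3) s.1 := by simp [L]

/- Translation of a state. -/
def sh (z : St) (t : Cl) : St := (z.1 + t, z.2)

theorem sh_eq (z : St) (t : Cl) : sh z t = (tr t).act z := (tr_act _ _).symm
theorem cell_sh (z : St) (t : Cl) (k : Fin 4) : cell (sh z t) k = cell z k + t := by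
  rw [sh_eq, Sym.cell_act]; rfl
theorem L_sh (i j : Fin 4) (z : St) (t : Cl) : L i j (sh z t) = L i j z + be i j t := by
  rw [sh_eq, L_tr]
theorem flip_sh (z : St) (t : Cl) : h58.flip (sh z t) = sh (h58.flip z) t := by
  rw [sh_eq, sh_eq, Sym.flip_act]

def pr (s : St) : St := rot (rot (rot (h58.flip s)))

theorem prism {ω : Om} {s : St} (ht : tri ω s)
    (h : ∀ k : Fin 4, k ≠ 0 → ω (cell (sh s (w (s.2 0))) k) = ω (cell s k)) :
    X ω s 3 = sh s (w (s.2 0)) := by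
  have ws := wsum s.2
  have c1 : cell (h58.flip s) 0 = cell (sh s (w (s.2 0))) 3 := by
    simp only [sh, cell_0, cell_3, flip_fst]
  have c2 : cell (h58.flip (pr s)) 0 = cell (sh s (w (s.2 0))) 2 := by
    simp only [pr, sh, cell_0, cell_2, flip_fst, rot_fst, rot_0, rot_1, rot_2, rot_3, flip_0,
      flip_1, flip_2, flip_3]; abel
  have c3 : cell (h58.flip (pr (pr s))) 0 = cell (sh s (w (s.2 0))) 1 := by
    simp only [pr, sh, cell_0, cell_1, flip_fst, rot_fst, rot_0, rot_1, rot_2, rot_3, flip_0,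
      flip_1, flip_2, flip_3]
    linear_combination (exp := 1) ws
  have e1 : X ω s 1 = pr s := by
    rw [X_succ, X_zero]
    exact turn_eq3 ((tri_flip _ _).2 ht) (by rw [c1, h 3 (by decide), cell_flip3])
  have e2 : X ω s 2 = pr (pr s) := by
    have t1 := tri_X ht 1
    rw [X_succ, e1]; rw [e1] at t1
    exact turn_eq3 ((tri_flip _ _).2 t1) (by rw [c2, h 2 (by decide)]; simp [pr])
  have e3 : X ω s 3 = pr (pr (pr s)) := by
    have t1 := tri_X ht 2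
    rw [X_succ, e2]; rw [e2] at t1
    exact turn_eq3 ((tri_flip _ _).2 t1) (by rw [c3, h 1 (by decide)]; simp [pr])
  rw [e3]
  apply St.ext4
  · simp only [pr, sh, flip_fst, rot_fst, rot_0, rot_1, rot_2, rot_3, flip_0,
      flip_1, flip_2, flip_3]
    linear_combination (exp := 1) (2 : ℤ) • ws
  all_goals simp [pr, sh]

def Dir (z : St) (t : Cl) : Prop := t = w (z.2 3) ∨ t = - w (z.2 0)

/- Extrusion: the path entering through `z` reaches the translated edge in three steps. -/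
theorem extr {ω : Om} {z : St} {t : Cl} (ht : tri ω z) (d : Dir z t)
    (h : ∀ k : Fin 4, k ≠ 0 → ω (cell (sh z t) k) = ω (cell z k)) :
    X ω (h58.flip z) 3 = h58.flip (sh z t) := by
  rcases d with rfl | rfl
  · rw [flip_sh, ← flip_0]
    refine prism ((tri_flip _ _).2 ht) fun k hk => ?_
    rw [flip_0, ← flip_sh]
    have := h k hk
    fin_cases k
    · exact absurd rfl hk
    all_goals simpa using this
  · have e : z = sh (sh z (-w (z.2 0))) (w ((sh z (-w (z.2 0))).2 0)) := by simp [sh]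
    have := prism (s := sh z (-w (z.2 0))) ((tri_congr h).2 ht) fun k hk => by
      rw [← e, h k hk]
    rw [← e] at this
    have r := X_rev ω (sh z (-w (z.2 0))) 3 3 le_rfl
    rwa [this] at r

/- The polytope, exit states, corners. -/
def Lam (R : ℤ) : Set Cl := {v | ∀ i j, be i j v ≤ R}
def Out (R : ℤ) (z : St) : Prop := z.1 ∈ Lam R ∧ be (z.2 0) (z.2 3) z.1 = R
def Ins (R : ℤ) (u : St) : Prop := ∀ i j, L i j u + 1 ≤ R
def Cor (R : ℤ) (z : St) : Prop :=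
  ∃ ρ : P4, R - 10 ≤ be (ρ 0) (ρ 3) z.1 ∧ R - 10 ≤ be (ρ 1) (ρ 2) z.1
def Hull (s s' : St) : Set Cl := {v | ∀ i j, be i j v ≤ max (L i j s) (L i j s') + 1}

/- A minimal gallery can be coloured so that the path follows it. -/
def Gal : Prop := ∀ (ω : Om) (s s' : St), tri ω s →
  L (s.2 0) (s.2 3) s + 1 ≤ L (s.2 0) (s.2 3) s' →
  L (s'.2 0) (s'.2 3) (h58.flip s) ≤ L (s'.2 0) (s'.2 3) s' → s' ≠ h58.flip s →
  ∃ ω' : Om, (∀ v, v ∉ Hull (h58.flip s) s' → ω' v = ω v) ∧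
    (∀ k : Fin 4, k ≠ 0 → ω' (cell s k) = ω (cell s k)) ∧
    ∃ t, ∀ ω'' : Om, (∀ v ∈ Hull (h58.flip s) s', ω'' v = ω' v) → X ω'' s t = s'

/- The joining gadget. -/
def Gad : Prop := ∀ (ρ : P4) (g : Cl), ∃ T₁ T₂ : St, T₁.2 = ρ ∧ T₂.2 = ρ ∧
  L (ρ 0) (ρ 3) T₁ = be (ρ 0) (ρ 3) g - 1 ∧ L (ρ 0) (ρ 3) T₂ = be (ρ 0) (ρ 3) g - 1 ∧
  L (ρ 1) (ρ 2) T₁ = be (ρ 1) (ρ 2) g - 1 ∧ L (ρ 1) (ρ 2) T₂ = be (ρ 1) (ρ 2) g + 1 ∧
  (∀ i j, L i j T₁ ≤ be i j g + 1 ∧ L i j T₂ ≤ be i j g + 1) ∧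
  ∀ ω : Om, tri ω T₁ → tri ω T₂ → ¬ (chi ω T₁ ↔ chi ω T₂) →
    ∃ ω' : Om, (∀ v, ω' v ≠ ω v →
      be (ρ 0) (ρ 3) g + 1 ≤ be (ρ 0) (ρ 3) v ∧ ∀ i j, be i j v ≤ be i j g + 2) ∧
      ∃ n, X ω' T₁ n = h58.flip T₂

/- The case analysis for two exit states away from the acute corners. -/
def Cas : Prop := ∀ (R : ℤ) (z₁ z₂ : St), 20 ≤ R → Out R z₁ → Out R z₂ →
  ¬ Cor R z₁ → ¬ Cor R z₂ →
  ∃ t₁ t₂ : Cl, Dir z₁ t₁ ∧ Dir z₂ t₂ ∧ Ins R (sh z₁ t₁) ∧ Ins R (sh z₂ t₂) ∧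
    ((t₁ = t₂ ∧ ∃ k : Fin 4, k ≠ 0 ∧ ∃ k' : Fin 4, k' ≠ 0 ∧ cell z₁ k = cell z₂ k') ∨
      ∃ (ρ : P4) (g : Cl), (∀ i j, be i j g + 2 ≤ R) ∧
        L (ρ 1) (ρ 2) (sh z₁ t₁) + 1 ≤ be (ρ 1) (ρ 2) g ∧
        be (ρ 1) (ρ 2) g + 1 ≤ L (ρ 1) (ρ 2) (sh z₂ t₂) ∧
        L (ρ 0) (ρ 3) (sh z₁ t₁) + 1 ≤ be (ρ 0) (ρ 3) g ∧
        L (ρ 0) (ρ 3) (sh z₂ t₂) + 1 ≤ be (ρ 0) (ρ 3) g)

/- Two exit states of opposite chirality can be joined inside the polytope. -/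
def Con : Prop := ∀ (R : ℤ) (ω : Om) (z₁ z₂ : St), 20 ≤ R → Out R z₁ → Out R z₂ →
  ¬ Cor R z₁ → ¬ Cor R z₂ → tri ω z₁ → tri ω z₂ → ¬ (chi ω z₁ ↔ chi ω z₂) →
  ∃ ω' : Om, (∀ v, v ∉ Lam R → ω' v = ω v) ∧ ∃ n, X ω' (h58.flip z₁) n = z₂

/- `s` lies on an infinite path. -/
def Inf (ω : Om) (s : St) : Prop := tri ω s ∧ ∀ t, 1 ≤ t → X ω s t ≠ s

theorem Inf.inj {ω : Om} {s : St} (h : Inf ω s) : Function.Injective (X ω s) := by
  have key : ∀ t t', t' ≤ t → X ω s t = X ω s t' → t = t' := fun t t' l e => by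
    by_contra n
    exact h.2 (t - t') (by omega) (X_meet e l).symm
  intro t t' e
  rcases le_total t' t with l | l
  exacts [key _ _ l e, (key _ _ l e.symm).symm]

theorem Inf.flip {ω : Om} {s : St} (h : Inf ω s) : Inf ω (h58.flip s) := by
  refine ⟨(tri_flip _ _).2 h.1, fun t ht e => h.2 t ht ?_⟩
  have := X_rev ω (h58.flip s) t t le_rfl
  rwa [e, Nat.sub_self, X_zero, h58.flip_flip] at this

theorem Inf.X {ω : Om} {s : St} (h : Inf ω s) (t : ℕ) : Inf ω (X ω s t) := by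
  refine ⟨tri_X h.1 t, fun u hu e => ?_⟩
  rw [X_add] at e
  have := h.inj e
  omega

theorem meas_Inf (s : St) : Measurable fun ω : Om => Inf ω s :=
  (meas_tri s).and <| Measurable.forall fun t => measurable_const.imp <| meas_XP s t fun x => x ≠ s

theorem Inf_act (g : Sym) (ω : Om) (s : St) :
    Inf ω (g.act s) ↔ Inf (fun v => ω (g.φ v)) s := by
  simp only [Inf, g.tri_act, g.X_act, ne_eq, g.act_inj.eq_iff]

/- The last exit from the polytope, and the monochromatic corner zones. -/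
noncomputable def Zon (R : ℤ) : Finset Cl :=
  (Finset.univ ×ˢ Finset.Icc (fun _ => -30) (fun _ => 30)).image
    fun x : P4 × Cl => R • (w (x.1 0) + w (x.1 1)) + x.2

def Exi : Prop :=
  (∀ (R : ℤ) (ω : Om) (s : St), Inf ω s → s.1 ∈ Lam R → ∃ t, Out R (X ω s t) ∧
    ∀ ω' : Om, (∀ v, v ∉ Lam R → ω' v = ω v) →
      (∀ k : Fin 4, k ≠ 0 → ω' (cell (X ω s t) k) = ω (cell (X ω s t) k)) ∧
      ∀ u, X ω' (X ω s t) u = X ω (X ω s t) u) ∧
  (∀ (R : ℤ) (ω : Om) (z : St), Out R z → tri ω z → (∀ v ∈ Zon R, ω v = 0) → ¬ Cor R z) ∧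
  (∃ N : ℕ, ∀ R, (Zon R).card ≤ N) ∧
  (∀ F : Finset Cl, ∃ R₀ : ℤ, ∀ R, R₀ ≤ R → (∀ v ∈ F, v ∈ Lam R) ∧ ∀ v ∈ Zon R, v ∉ F) ∧
  ∀ R, (Lam R).Finite

/- Modification of a colouring on a finite set. -/
noncomputable def md (F : Finset Cl) (η ω : Om) : Om := fun v => if v ∈ F then η v else ω v

theorem meas_md (F : Finset Cl) (η : Om) : Measurable (md F η) := by
  refine measurable_pi_lambda _ fun v => ?_
  unfold md
  split_ifs <;> fun_prop

/- Finite energy and mixing. -/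
def Fen : Prop := ∀ (ν : Measure (Fin 3)) [IsProbabilityMeasure ν] (q : ℝ≥0∞),
  (∀ c, q ≤ ν {c}) → ∀ (F : Finset Cl) (η : Om),
    q ^ F.card ≤ mu ν {ω | ∀ v ∈ F, ω v = η v} ∧
    ∀ S : Set Om, MeasurableSet S → q ^ F.card * mu ν {ω | md F η ω ∈ S} ≤ mu ν S

def App : Prop := ∀ (ν : Measure (Fin 3)) [IsProbabilityMeasure ν] (E : Set Om),
  MeasurableSet E → ∀ ε : ℝ≥0∞, ε ≠ 0 → ∃ (F : Finset Cl) (B : Set Om), MeasurableSet B ∧
    Det (F : Set Cl) B ∧ mu ν {ω | ¬ (ω ∈ E ↔ ω ∈ B)} ≤ ε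

def Mix : Prop := ∀ (ν : Measure (Fin 3)) [IsProbabilityMeasure ν] (E : Set Om),
  MeasurableSet E → mu ν E ≠ 0 →
    (∀ c : ℝ≥0∞, c ≠ 0 → ∃ F : Finset Cl, ∀ Z : Set Om, MeasurableSet Z →
      Det (F : Set Cl)ᶜ Z → c ≤ mu ν Z → mu ν (E ∩ Z) ≠ 0) ∧
    ∀ E' : Set Om, MeasurableSet E' → mu ν E' ≠ 0 →
      ∃ v : Cl, mu ν (E ∩ {ω | (fun u => ω ((tr v).φ u)) ∈ E'}) ≠ 0

/- A measurable, translation covariant property of paths. -/
structure Obs (A : Om → St → Prop) : Prop where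
  m : ∀ s, Measurable fun ω => A ω s
  c : ∀ v ω s, A ω ((tr v).act s) ↔ A (fun u => ω ((tr v).φ u)) s
  f : ∀ ω s, tri ω s → (A ω (h58.flip s) ↔ A ω s)
  n : ∀ ω s, tri ω s → (A ω (nxt ω s) ↔ A ω s)

theorem Obs.X {A : Om → St → Prop} (h : Obs A) {ω : Om} {s : St} (ht : tri ω s) (t : ℕ) :
    A ω (X ω s t) ↔ A ω s := by
  induction t with
  | zero => rfl
  | succ t ih => rw [X_succ, h.n _ _ (tri_X ht t), ih]

/- The property is not changed by a finite modification that keeps a ray. -/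
def Tai : Prop := ∀ (ν : Measure (Fin 3)) [IsProbabilityMeasure ν] (q : ℝ≥0∞), q ≠ 0 →
  (∀ c, q ≤ ν {c}) → ∀ A : Om → St → Prop, Obs A → ∀ (F : Finset Cl) (η : Om) (s : St),
    ∀ᵐ ω ∂(mu ν), Inf ω s → tri (md F η ω) s → (∀ t, X (md F η ω) s t = X ω s t) →
      (A ω s ↔ A (md F η ω) s)

/- The theorem in the alcove model. -/
def Core : Prop := ∀ (ν : Measure (Fin 3)) [IsProbabilityMeasure ν] (q : ℝ≥0∞), q ≠ 0 →
  (∀ c, q ≤ ν {c}) → ∀ A : Om → St → Prop, Obs A →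
    (∀ᵐ ω ∂(mu ν), ∀ s, Inf ω s → A ω s) ∨ (∀ᵐ ω ∂(mu ν), ∀ s, Inf ω s → ¬ A ω s)

/- The theorem in the words of the frozen statement. -/
def Thm : Prop := ∀ (p : PMF (Fin 3))
    (A : ((Fin 3 → ℤ) → Fin 3) → Finset (Fin 3 → ℤ) → Prop),
    (∀ Q, MeasurableSet {ω | A ω Q}) →
    (∀ ω ω' Q, (∀ v, ((∀ i, Even (v i)) ∨ (∀ i, Odd (v i))) → ω v = ω' v) → (A ω Q ↔ A ω' Q)) →
    (∀ v, ((∀ i, Even (v i)) ∨ (∀ i, Odd (v i))) → ∀ ω Q,
      A ω (Q.image (· + v)) ↔ A (fun u => ω (u + v)) Q) →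
    (∀ ω Q R, Step ω Q R → (A ω Q ↔ A ω R)) →
    (∀ᵐ ω ∂(Measure.infinitePi (fun _ : Fin 3 → ℤ => p.toMeasure)),
      ∀ y : ℕ → Finset (Fin 3 → ℤ), Function.Injective y →
        (∀ k, Step ω (y k) (y (k + 1))) → A ω (y 0)) ∨
    (∀ᵐ ω ∂(Measure.infinitePi (fun _ : Fin 3 → ℤ => p.toMeasure)),
      ∀ y : ℕ → Finset (Fin 3 → ℤ), Function.Injective y →
        (∀ k, Step ω (y k) (y (k + 1))) → ¬ A ω (y 0))

end Pool.Agent.MP_5f6c2d_pr.I29
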