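import Pool.Agent.MP_5f6c2d_pr.I29.Spec

/- A property of paths is not changed by a finite modification that keeps a ray. -/

set_option autoImplicit false
open MeasureTheory

namespace Pool.Agent.MP_5f6c2d_pr.I29

open scoped Classical ENNReal
open h58

theorem tai_st (ν : Measure (Fin 3)) [IsProbabilityMeasure ν] (P : Om → St → Prop)
    (hm : ∀ s, Measurable fun ω => P ω s)
    (hc : ∀ v ω s, P ω ((tr v).act s) ↔ P (fun u => ω ((tr v).φ u)) s) (s : St) :
    mu ν {ω | P ω s} ≤ dens ν P := by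
  refine le_trans (le_of_eq ?_) (le_dens ν P s.2)
  rw [← mu_pre ν (tr s.1).inj (measurableSet_setOfPred.2 (hm (0, s.2)))]
  have e : s = (tr s.1).act (0, s.2) := by rw [tr_act, zero_add]
  congr 1; ext ω
  rw [Set.mem_ofPred_eq, Set.mem_ofPred_eq, ← hc, ← e]

theorem tai_X (ν : Measure (Fin 3)) [IsProbabilityMeasure ν] (P : Om → St → Prop)
    (hm : ∀ s, Measurable fun ω => P ω s)
    (hc : ∀ v ω s, P ω ((tr v).act s) ↔ P (fun u => ω ((tr v).φ u)) s) (s : St) (k : ℕ) :
    mu ν {ω | P ω (X ω s k)} ≤ dens ν P := by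
  have h1 := tai_st ν (fun ω s => P ω (X ω s k)) (fun s => meas_comp hm (meas_X s k))
    (fun v ω s => by rw [Sym.X_act, hc]) s
  refine h1.trans ?_
  have h2 := mtp ν (fun ω s s' => X ω s k = s' ∧ P ω s')
    (fun s s' => (meas_XP s k fun x => x = s').and (hm s'))
    (fun v ω s s' => by rw [Sym.X_act, hc, (tr v).act_inj.eq_iff])
    (fun ω s => P ω (X ω s k)) P 1 1
    (fun ω s h => ⟨{X ω s k}, by simp, fun s' hs' => by
      rw [Finset.mem_singleton.1 hs']; exact ⟨rfl, h⟩⟩)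
    (fun ω s s' h => h.2)
    (fun ω s' A h => Finset.card_le_one.2 fun a ha b hb =>
      X_inj ω k ((h a ha).1.trans (h b hb).1.symm))
  simpa using h2

theorem tai_far (F G : Finset Cl) (f : ℕ → St) (hf : Function.Injective f) :
    ∃ K, ∀ k, K ≤ k → ∀ u ∈ G, u + (f k).1 ∉ F := by
  have h1 : Set.Finite {x : St | ∃ u ∈ G, u + x.1 ∈ F} := by
    refine (((G ×ˢ F) ×ˢ (Finset.univ : Finset P4)).image
      fun y : (Cl × Cl) × P4 => ((y.1.2 - y.1.1, y.2) : St)).finite_toSet.subset ?_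
    rintro x ⟨u, hu, hx⟩
    refine Finset.mem_coe.2 (Finset.mem_image.2 ⟨((u, u + x.1), x.2), ?_, ?_⟩)
    · exact Finset.mem_product.2 ⟨Finset.mem_product.2 ⟨hu, hx⟩, Finset.mem_univ _⟩
    · simp
  obtain ⟨K, hK⟩ := (h1.preimage hf.injOn).bddAbove
  refine ⟨K + 1, fun k hk u hu hx => ?_⟩
  have : k ≤ K := hK (show f k ∈ {x : St | ∃ u ∈ G, u + x.1 ∈ F} from ⟨u, hu, hx⟩)
  omega

theorem tai (h1 : Fen) (h2 : App) : Tai := by
  intro ν _ q hq0 hq A hA F η s
  rw [ae_iff]
  set Bad : Set Om := {ω | ¬ (Inf ω s → tri (md F η ω) s →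
    (∀ t, X (md F η ω) s t = X ω s t) → (A ω s ↔ A (md F η ω) s))} with hBad
  have hq1 : q ^ F.card ≤ 1 := pow_le_one₀ zero_le ((hq 0).trans prob_le_one)
  have key : ∀ ε : ℝ≥0∞, ε ≠ 0 → q ^ F.card * mu ν Bad ≤ 48 * ε := by
    intro ε hε
    choose G B hBm hBd hBe using fun π : P4 =>
      h2 ν {ω | A ω (0, π)} (measurableSet_setOfPred.2 (hA.m _)) ε hε
    let Bs : Om → St → Prop := fun ω x => (fun u => ω ((tr x.1).φ u)) ∈ B x.2
    let D : Om → St → Prop := fun ω x => ¬ (A ω x ↔ Bs ω x)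
    have mB : ∀ x, Measurable fun ω => Bs ω x := fun x =>
      (measurableSet_setOfPred.1 (hBm x.2)).comp
        (show Measurable fun (ω : Om) u => ω ((tr x.1).φ u) by fun_prop)
    have mD : ∀ x, Measurable fun ω => D ω x := fun x => ((hA.m x).iff (mB x)).not
    have cB : ∀ v ω x, Bs ω ((tr v).act x) ↔ Bs (fun u => ω ((tr v).φ u)) x := by
      intro v ω x
      simp only [Bs, tr_act]
      simp only [tr, add_assoc]
    have cD : ∀ v ω x, D ω ((tr v).act x) ↔ D (fun u => ω ((tr v).φ u)) x := by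
      intro v ω x
      simp only [D, hA.c, cB]
    have dD : dens ν D ≤ 24 * ε := dens_le ν fun π => by
      refine le_trans (le_of_eq ?_) (hBe π)
      congr 1; ext ω
      simp only [D, Bs, tr, add_zero, Set.mem_ofPred_eq]
    let S : ℕ → Set Om := fun k => {ω | D ω (X ω s k)}
    have mS : ∀ k, MeasurableSet (S k) := fun k =>
      measurableSet_setOfPred.2 (meas_comp mD (meas_X s k))
    have bS : ∀ k, mu ν (S k) ≤ 24 * ε := fun k => (tai_X ν D mD cD s k).trans dD
    let P : ℕ → Set Om := fun K =>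
      Bad ∩ {ω | ∀ k, K ≤ k → ∀ u ∈ Finset.univ.biUnion G, u + (X ω s k).1 ∉ F}
    have hPm : Monotone P := fun K K' hK ω hω => ⟨hω.1, fun k hk => hω.2 k (hK.trans hk)⟩
    have hU : Bad = ⋃ K, P K := by
      refine Set.Subset.antisymm (fun ω hω => ?_) (Set.iUnion_subset fun K => Set.inter_subset_left)
      have hi : Inf ω s := by
        by_contra n
        exact hω fun h => absurd h n
      obtain ⟨K, hK⟩ := tai_far F (Finset.univ.biUnion G) (X ω s) hi.inj
      exact Set.mem_iUnion.2 ⟨K, hω, hK⟩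
    have hsub : ∀ K, P K ⊆ S K ∪ {ω | md F η ω ∈ S K} := by
      intro K ω hω
      by_contra n
      refine hω.1 fun hi ht hx => ?_
      have n1 : A ω (X ω s K) ↔ Bs ω (X ω s K) := by
        by_contra m; exact n (Or.inl m)
      have n2 : A (md F η ω) (X (md F η ω) s K) ↔ Bs (md F η ω) (X (md F η ω) s K) := by
        by_contra m; exact n (Or.inr m)
      have ag : ∀ u ∈ (G (X ω s K).2 : Set Cl),
          ω ((tr (X ω s K).1).φ u) = md F η ω ((tr (X ω s K).1).φ u) := by
        intro u hu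
        have := hω.2 K le_rfl u (Finset.mem_biUnion.2 ⟨_, Finset.mem_univ _, hu⟩)
        exact (if_neg this).symm
      have e : Bs ω (X ω s K) ↔ Bs (md F η ω) (X ω s K) :=
        ⟨hBd _ _ _ ag, hBd _ _ _ fun u hu => (ag u hu).symm⟩
      rw [← hA.X hi.1 K, ← hA.X ht K, n1, n2, hx K, e]
    rw [hU, hPm.measure_iUnion, ENNReal.mul_iSup]
    refine iSup_le fun K => ?_
    calc q ^ F.card * mu ν (P K)
        ≤ q ^ F.card * (mu ν (S K) + mu ν {ω | md F η ω ∈ S K}) :=
          mul_le_mul_right ((measure_mono (hsub K)).trans (measure_union_le _ _)) _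
      _ = q ^ F.card * mu ν (S K) + q ^ F.card * mu ν {ω | md F η ω ∈ S K} := mul_add _ _ _
      _ ≤ 24 * ε + 24 * ε := by
          refine add_le_add ?_ (((h1 ν q hq F η).2 _ (mS K)).trans (bS K))
          exact (mul_le_of_le_one_left zero_le hq1).trans (bS K)
      _ = 48 * ε := by rw [← add_mul]; norm_num
  have z : q ^ F.card * mu ν Bad ≤ 0 := by
    refine le_of_forall_gt_imp_ge_of_dense fun ε hε => ?_
    have := key (ε / 48) (ENNReal.div_ne_zero.2 ⟨hε.ne', by norm_num⟩)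
    rwa [ENNReal.mul_div_cancel (by norm_num) (by norm_num)] at this
  exact (mul_eq_zero.1 (le_zero_iff.1 z)).resolve_left (pow_ne_zero _ hq0)

end Pool.Agent.MP_5f6c2d_pr.I29
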